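import Mathlib
import Pool.Agent.H409R2.MZ.Tree

set_option autoImplicit false

namespace Pool.Agent.H409R2.MZ.Mk

noncomputable section

/-- sum over the leaves (nodes of size at least `M`) below a node, with fuel -/
def LS (M : ℕ) (Φ : Nd → ℝ) : ℕ → Nd → ℝ
  | 0, X => Φ X
  | (n + 1), X => if M ≤ X.p + X.q then Φ X else LS M Φ n (lf X) + LS M Φ n (rt X)

structure IsLeaf (M : ℕ) (X : Nd) : Prop where
  v : Valid X
  s : M ≤ X.p + X.q
  p : X.p ≤ M
  q : X.q ≤ M

structure Inn (M n : ℕ) (X : Nd) : Prop where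
  v : Valid X
  s : M ≤ X.p + X.q + n
  p : X.p ≤ M
  q : X.q ≤ M

lemma Inn.lf {M n : ℕ} {X : Nd} (h : Inn M (n + 1) X) (hs : ¬ M ≤ X.p + X.q) : Inn M n (lf X) := by
  refine ⟨h.v.lf, ?_, h.p, ?_⟩
  · have := h.s; have := h.v.p1; simp only [Mk.lf]; omega
  · simp only [Mk.lf]; omega

lemma Inn.rt {M n : ℕ} {X : Nd} (h : Inn M (n + 1) X) (hs : ¬ M ≤ X.p + X.q) : Inn M n (rt X) := by
  refine ⟨h.v.rt, ?_, ?_, h.q⟩
  · have := h.s; have := h.v.q1; simp only [Mk.rt]; omega
  · simp only [Mk.rt]; omega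

lemma LS_le_desc (M : ℕ) (Φ Ψ : Nd → ℝ) (n : ℕ) (X : Nd) (hX : Inn M n X)
    (H : ∀ l, IsLeaf M (desc X l) → Φ (desc X l) ≤ Ψ (desc X l)) : LS M Φ n X ≤ LS M Ψ n X := by
  induction n generalizing X with
  | zero =>
    have := hX.s
    exact H [] ⟨hX.v, hX.s, hX.p, hX.q⟩
  | succ n ih =>
    unfold LS
    split_ifs with hs
    · exact H [] ⟨hX.v, hs, hX.p, hX.q⟩
    · apply add_le_add
      · exact ih (lf X) (hX.lf hs) (fun l hl => H (true :: l) hl)
      · exact ih (rt X) (hX.rt hs) (fun l hl => H (false :: l) hl)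

lemma LS_add (M : ℕ) (Φ Ψ : Nd → ℝ) (n : ℕ) (X : Nd) :
    LS M (fun X => Φ X + Ψ X) n X = LS M Φ n X + LS M Ψ n X := by
  induction n generalizing X with
  | zero => rfl
  | succ n ih =>
    unfold LS
    split_ifs
    · rfl
    · rw [ih, ih]; ring

lemma LS_smul (M : ℕ) (k : ℝ) (Φ : Nd → ℝ) (n : ℕ) (X : Nd) :
    LS M (fun X => k * Φ X) n X = k * LS M Φ n X := by
  induction n generalizing X with
  | zero => rfl
  | succ n ih =>
    unfold LS
    split_ifs
    · rfl
    · rw [ih, ih]; ring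

lemma LS_zero (M : ℕ) (n : ℕ) (X : Nd) : LS M (fun _ => 0) n X = 0 := by
  induction n generalizing X with
  | zero => rfl
  | succ n ih =>
    unfold LS
    split_ifs
    · rfl
    · rw [ih, ih]; ring

lemma LS_nonneg (M : ℕ) (Φ : Nd → ℝ) (n : ℕ) (X : Nd) (hX : Inn M n X)
    (H : ∀ l, IsLeaf M (desc X l) → 0 ≤ Φ (desc X l)) : 0 ≤ LS M Φ n X := by
  have := LS_le_desc M (fun _ => 0) Φ n X hX H
  rwa [LS_zero] at this

/-- the additive measure -/
def meas (X : Nd) : ℝ := 1 / ((X.p : ℝ) * X.q)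

lemma meas_pos {X : Nd} (h : Valid X) : 0 < meas X := by
  have h1 : (0 : ℝ) < X.p := by exact_mod_cast h.p1
  have h2 : (0 : ℝ) < X.q := by exact_mod_cast h.q1
  unfold meas; positivity

lemma meas_split {X : Nd} (h : Valid X) : meas (lf X) + meas (rt X) = meas X := by
  have h1 : (0 : ℝ) < X.p := by exact_mod_cast h.p1
  have h2 : (0 : ℝ) < X.q := by exact_mod_cast h.q1
  unfold meas Mk.lf Mk.rt
  simp only
  push_cast
  field_simp
  ring

lemma LS_meas (M n : ℕ) (X : Nd) (h : Valid X) : LS M meas n X = meas X := by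
  induction n generalizing X with
  | zero => rfl
  | succ n ih =>
    unfold LS
    split_ifs
    · rfl
    · rw [ih _ h.lf, ih _ h.rt, meas_split h]

lemma one_le_meas {M : ℕ} {X : Nd} (h : IsLeaf M X) : 1 ≤ (M : ℝ) ^ 2 * meas X := by
  have h1 : (0 : ℝ) < X.p := by exact_mod_cast h.v.p1
  have h2 : (0 : ℝ) < X.q := by exact_mod_cast h.v.q1
  have h3 : (X.p : ℝ) ≤ M := by exact_mod_cast h.p
  have h4 : (X.q : ℝ) ≤ M := by exact_mod_cast h.q
  unfold meas
  rw [mul_one_div, le_div_iff₀ (by positivity)]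
  nlinarith

/-- number of leaves -/
lemma LS_one_le (M n : ℕ) (X : Nd) (hX : Inn M n X) : LS M (fun _ => 1) n X ≤ (M : ℝ) ^ 2 * meas X := by
  have h1 := LS_le_desc M (fun _ => 1) (fun X => (M : ℝ) ^ 2 * meas X) n X hX (fun l hl => one_le_meas hl)
  rw [LS_smul, LS_meas M n X hX.v] at h1
  exact h1

lemma LS_one_ge (M n : ℕ) (X : Nd) : 1 ≤ LS M (fun _ => 1) n X := by
  induction n generalizing X with
  | zero => exact le_refl _
  | succ n ih =>
    unfold LS
    split_ifs
    · exact le_refl _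
    · have h1 := ih (lf X)
      have h2 := ih (rt X)
      linarith

/-- existence of a leaf where a function is nonzero -/
lemma exists_leaf_of_ne (M : ℕ) (Φ : Nd → ℝ) (n : ℕ) (X : Nd) (hX : Inn M n X)
    (h : LS M Φ n X ≠ 0) : ∃ l, IsLeaf M (desc X l) ∧ Φ (desc X l) ≠ 0 := by
  induction n generalizing X with
  | zero => exact ⟨[], ⟨hX.v, hX.s, hX.p, hX.q⟩, h⟩
  | succ n ih =>
    unfold LS at h
    split_ifs at h with hs
    · exact ⟨[], ⟨hX.v, hs, hX.p, hX.q⟩, h⟩
    · by_cases h1 : LS M Φ n (lf X) = 0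
      · have h2 : LS M Φ n (rt X) ≠ 0 := by
          intro h2; apply h; rw [h1, h2, add_zero]
        obtain ⟨l, hl⟩ := ih (rt X) (hX.rt hs) h2
        exact ⟨false :: l, hl⟩
      · obtain ⟨l, hl⟩ := ih (lf X) (hX.lf hs) h1
        exact ⟨true :: l, hl⟩

/-- linear functional identity -/
lemma ell_e1 (X : Nd) (w1 w2 : ℤ × ℤ) :
    ((w1.1 * w2.2 - w1.2 * w2.1 : ℤ) : ℝ) * ell X (1, 0) = (w2.2 : ℝ) * ell X w1 - (w1.2 : ℝ) * ell X w2 := by
  unfold ell cu cv
  push_cast
  ring

lemma ell_e1_lower (l : List Bool) : 1 / 2 ≤ ell (desc root l) (1, 0) := by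
  have h1 := (sandwich valid_root (z := (1, 0)) ⟨by norm_num, by norm_num⟩ l).1
  have h2 : ellm root (1, 0) = km root := by
    unfold ellm cu cv root; simp
  rw [h2] at h1
  have h3 := km_ge valid_root
  have h4 := al_lower valid_root
  have h5 : dl root = 1 / 4 := by unfold dl root; norm_num
  rw [h5] at h3
  linarith

lemma ell_e1_upper (l : List Bool) : ell (desc root l) (1, 0) ≤ 2 := by
  have h1 := (sandwich valid_root (z := (1, 0)) ⟨by norm_num, by norm_num⟩ l).2
  have h2 : ellp root (1, 0) = al root := by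
    unfold ellp cu cv root; simp
  rw [h2] at h1
  have h4 := (al_size valid_root).2
  have h5 : (root.p : ℝ) = 1 := by simp [root]
  rw [h5] at h4
  linarith

lemma ell_e2_lower (l : List Bool) : 1 / 2 ≤ ell (desc root l) (0, 1) := by
  have h1 := (sandwich valid_root (z := (0, -1)) ⟨by norm_num, by norm_num⟩ l).2
  have h2 : ellp root (0, -1) = - kp root := by
    unfold ellp cu cv root; simp
  have h0 : ell (desc root l) (0, -1) = - ell (desc root l) (0, 1) := by
    unfold ell cu cv; push_cast; ring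
  rw [h2, h0] at h1
  have h3 := kp_ge valid_root
  have h4 := be_lower valid_root
  have h5 : dl root = 1 / 4 := by unfold dl root; norm_num
  rw [h5] at h3
  linarith

lemma ell_e2_upper (l : List Bool) : ell (desc root l) (0, 1) ≤ 2 := by
  have h1 := (sandwich valid_root (z := (0, -1)) ⟨by norm_num, by norm_num⟩ l).1
  have h2 : ellm root (0, -1) = - be root := by
    unfold ellm cu cv root; simp
  have h0 : ell (desc root l) (0, -1) = - ell (desc root l) (0, 1) := by
    unfold ell cu cv; push_cast; ring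
  rw [h2, h0] at h1
  have h4 := (be_size valid_root).2
  have h5 : (root.q : ℝ) = 1 := by simp [root]
  rw [h5] at h4
  linarith

lemma desc_append (X : Nd) (l1 l2 : List Bool) : desc X (l1 ++ l2) = desc (desc X l1) l2 := by
  induction l1 generalizing X with
  | nil => rfl
  | cons b l ih => cases b <;> exact ih _

/-- assumptions on the vectors `w` attached to the leaves -/
structure WData (M : ℕ) (w : Nd → ℤ × ℤ) (η : ℝ) : Prop where
  pos : ∀ l, IsLeaf M (desc root l) → 0 < (w (desc root l)).1 ∧ (w (desc root l)).2 < 0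
  cop : ∀ l, IsLeaf M (desc root l) → IsCoprime (w (desc root l)).1 (w (desc root l)).2
  small : ∀ l, IsLeaf M (desc root l) → |ell (desc root l) (w (desc root l))| ≤ η

lemma coprime_eq {x1 y1 x2 y2 : ℤ} (h1 : IsCoprime x1 y1) (h2 : IsCoprime x2 y2)
    (hx1 : 0 < x1) (hx2 : 0 < x2) (hdet : x1 * y2 - y1 * x2 = 0) : x1 = x2 ∧ y1 = y2 := by
  have hd1 : x1 ∣ x2 := by
    have : x1 ∣ y1 * x2 := ⟨y2, by linarith⟩
    exact h1.dvd_of_dvd_mul_left this
  have hd2 : x2 ∣ x1 := by
    have : x2 ∣ y2 * x1 := ⟨y1, by linarith⟩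
    exact h2.dvd_of_dvd_mul_left this
  have he : x1 = x2 := Int.dvd_antisymm hx1.le hx2.le hd1 hd2
  refine ⟨he, ?_⟩
  subst he
  have : x1 * (y2 - y1) = 0 := by linarith
  rcases mul_eq_zero.mp this with h | h
  · omega
  · omega

/-- parameters: `M` large, `η` small, `V` the intermediate level -/
structure Params (M V : ℕ) (η : ℝ) : Prop where
  M1 : 1 ≤ M
  VM : V ≤ M
  V2 : 2 ≤ V
  η0 : 0 ≤ η
  uniq : (M : ℝ) ^ 2 * (2 * η + (M : ℝ) ^ 2 * (16 / 2 ^ V)) < 1 / 2
  jump : ∀ s : ℕ, 40 * s ≤ M → 2 * η < 4 / 36 ^ s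
  small : ∀ s : ℕ, M < 40 * s → s ≤ 2 * M → η + s * (M : ℝ) ^ 2 * (16 / 4 ^ s) ≤ Real.exp (-(M / 50))

lemma size_two_pow (s : ℕ) : (s : ℝ) ≤ 2 ^ s := by
  exact_mod_cast Nat.lt_two_pow_self.le

/-- uniqueness of `w` below a node of size at least `V` -/
lemma claimU {M V : ℕ} {w : Nd → ℤ × ℤ} {η : ℝ} (hw : WData M w η) (hP : Params M V η)
    (l0 l1 l2 : List Bool) (hV : V ≤ (desc root l0).p + (desc root l0).q)
    (hl1 : IsLeaf M (desc (desc root l0) l1)) (hl2 : IsLeaf M (desc (desc root l0) l2))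
    (hb1 : len (w (desc (desc root l0) l1)) ≤ (M : ℤ) ^ 2) (hb2 : len (w (desc (desc root l0) l2)) ≤ (M : ℤ) ^ 2) :
    w (desc (desc root l0) l1) = w (desc (desc root l0) l2) := by
  rw [← desc_append] at hl1 hl2 hb1 hb2
  have hp1 := hw.pos _ hl1
  have hp2 := hw.pos _ hl2
  have hc1 := hw.cop _ hl1
  have hc2 := hw.cop _ hl2
  have hs1 := hw.small _ hl1
  have hs2 := hw.small _ hl2
  rw [desc_append] at hl1 hb1 hp1 hc1 hs1
  rw [desc_append] at hl2 hb2 hp2 hc2 hs2
  have hA : 1 / 2 ≤ ell (desc (desc root l0) l1) (1, 0) := by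
    rw [← desc_append]; exact ell_e1_lower _
  set X := desc root l0 with hX
  have hXv : Valid X := valid_root.desc l0
  set c1 := desc X l1 with hc1'
  set c2 := desc X l2 with hc2'
  set w1 := w c1 with hw1
  set w2 := w c2 with hw2
  have hq2 : Q4 w2 := ⟨hp2.1.le, hp2.2.le⟩
  have hsand1 := sandwich hXv hq2 l1
  have hsand2 := sandwich hXv hq2 l2
  have hwidth := width hXv hq2
  have hdl := dl_size hXv
  have hdl0 := dl_pos hXv
  set s := X.p + X.q with hs
  have hb2' : (len w2 : ℝ) ≤ (M : ℝ) ^ 2 := by exact_mod_cast hb2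
  have hlen2 : (0 : ℝ) ≤ len w2 := by
    have : (0 : ℤ) ≤ len w2 := by unfold len; omega
    exact_mod_cast this
  have hwd : ((X.p : ℝ) + X.q) * len w2 * dl X ≤ (M : ℝ) ^ 2 * (16 / 2 ^ V) := by
    have e1 : ((X.p : ℝ) + X.q) = (s : ℕ) := by rw [hs]; push_cast; ring
    rw [e1]
    have h2s : (2 : ℝ) ^ V ≤ 2 ^ s := pow_le_pow_right₀ (by norm_num) hV
    have h4 : (4 : ℝ) ^ s = 2 ^ s * 2 ^ s := by rw [← mul_pow]; norm_num
    calc ((s : ℕ) : ℝ) * len w2 * dl X ≤ 2 ^ s * (M : ℝ) ^ 2 * (16 / 4 ^ s) := by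
          apply mul_le_mul _ hdl hdl0.le (by positivity)
          exact mul_le_mul (size_two_pow s) hb2' hlen2 (by positivity)
      _ = (M : ℝ) ^ 2 * (16 / 2 ^ s) := by rw [h4]; field_simp
      _ ≤ (M : ℝ) ^ 2 * (16 / 2 ^ V) := by
          apply mul_le_mul_of_nonneg_left _ (by positivity)
          exact div_le_div_of_nonneg_left (by norm_num) (by positivity) h2s
  have hs2' := abs_le.mp hs2
  have hell12 : |ell c1 w2| ≤ η + (M : ℝ) ^ 2 * (16 / 2 ^ V) := by
    rw [abs_le]
    constructor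
    · have := hsand1.1; have := hsand2.2; linarith [hs2'.1, hs2'.2]
    · have := hsand1.2; have := hsand2.1; linarith [hs2'.1, hs2'.2]
  have hid := ell_e1 c1 w1 w2
  have hb1' : (len w1 : ℝ) ≤ (M : ℝ) ^ 2 := by exact_mod_cast hb1
  have hw12 : |(w1.2 : ℝ)| ≤ (M : ℝ) ^ 2 := by
    have : |(w1.2 : ℝ)| ≤ len w1 := by
      have h1 : (0 : ℝ) < w1.1 := by exact_mod_cast hp1.1
      have h2 : (w1.2 : ℝ) < 0 := by exact_mod_cast hp1.2
      rw [abs_of_neg h2]; unfold len; push_cast; linarith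
    linarith
  have hw22 : |(w2.2 : ℝ)| ≤ (M : ℝ) ^ 2 := by
    have : |(w2.2 : ℝ)| ≤ len w2 := by
      have h1 : (0 : ℝ) < w2.1 := by exact_mod_cast hp2.1
      have h2 : (w2.2 : ℝ) < 0 := by exact_mod_cast hp2.2
      rw [abs_of_neg h2]; unfold len; push_cast; linarith
    linarith
  have hdetlt : |((w1.1 * w2.2 - w1.2 * w2.1 : ℤ) : ℝ)| < 1 := by
    have h1 : |((w1.1 * w2.2 - w1.2 * w2.1 : ℤ) : ℝ)| * (1 / 2) ≤ |((w1.1 * w2.2 - w1.2 * w2.1 : ℤ) : ℝ) * ell c1 (1, 0)| := by
      rw [abs_mul]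
      apply mul_le_mul_of_nonneg_left _ (abs_nonneg _)
      exact hA.trans (le_abs_self _)
    rw [hid] at h1
    have h2 : |(w2.2 : ℝ) * ell c1 w1 - (w1.2 : ℝ) * ell c1 w2| ≤ (M : ℝ) ^ 2 * η + (M : ℝ) ^ 2 * (η + (M : ℝ) ^ 2 * (16 / 2 ^ V)) := by
      refine (abs_sub _ _).trans ?_
      rw [abs_mul, abs_mul]
      apply add_le_add
      · exact mul_le_mul hw22 hs1 (abs_nonneg _) (by positivity)
      · exact mul_le_mul hw12 hell12 (abs_nonneg _) (by positivity)
    have h3 := hP.uniq
    have h4 : (M : ℝ) ^ 2 * η + (M : ℝ) ^ 2 * (η + (M : ℝ) ^ 2 * (16 / 2 ^ V)) = (M : ℝ) ^ 2 * (2 * η + (M : ℝ) ^ 2 * (16 / 2 ^ V)) := by ring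
    linarith
  have hdet0 : w1.1 * w2.2 - w1.2 * w2.1 = 0 := by
    have : |w1.1 * w2.2 - w1.2 * w2.1| < 1 := by exact_mod_cast hdetlt
    exact Int.abs_lt_one_iff.mp this
  obtain ⟨e1, e2⟩ := coprime_eq hc1 hc2 hp1.1 hp2.1 hdet0
  exact Prod.ext e1 e2

/-- two-sided bad leaves force a tiny jump -/
lemma claimJ {M V : ℕ} {w : Nd → ℤ × ℤ} {η : ℝ} (hw : WData M w η) (hP : Params M V η)
    (l0 l1 l2 : List Bool) (hV : V ≤ (desc root l0).p + (desc root l0).q)
    (hl1 : IsLeaf M (desc (lf (desc root l0)) l1)) (hl2 : IsLeaf M (desc (rt (desc root l0)) l2))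
    (hb1 : len (w (desc (lf (desc root l0)) l1)) ≤ (M : ℤ) ^ 2)
    (hb2 : len (w (desc (rt (desc root l0)) l2)) ≤ (M : ℤ) ^ 2) :
    jp (desc root l0) ≤ 2 * η := by
  have hU := claimU hw hP l0 (true :: l1) (false :: l2) hV hl1 hl2 hb1 hb2
  have e1 : desc (desc root l0) (true :: l1) = desc (lf (desc root l0)) l1 := rfl
  have e2 : desc (desc root l0) (false :: l2) = desc (rt (desc root l0)) l2 := rfl
  rw [e1, e2] at hU
  have hs1 : |ell (desc (lf (desc root l0)) l1) (w (desc (lf (desc root l0)) l1))| ≤ η := by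
    have h := hw.small (l0 ++ (true :: l1)) (by rw [desc_append]; exact hl1)
    rw [desc_append] at h
    exact h
  have hs2 : |ell (desc (rt (desc root l0)) l2) (w (desc (rt (desc root l0)) l2))| ≤ η := by
    have h := hw.small (l0 ++ (false :: l2)) (by rw [desc_append]; exact hl2)
    rw [desc_append] at h
    exact h
  have hp1 : 0 < (w (desc (lf (desc root l0)) l1)).1 ∧ (w (desc (lf (desc root l0)) l1)).2 < 0 := by
    have h := hw.pos (l0 ++ (true :: l1)) (by rw [desc_append]; exact hl1)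
    rw [desc_append] at h
    exact h
  rw [← hU] at hs2
  set W := w (desc (lf (desc root l0)) l1) with hW
  set X := desc root l0 with hX
  have hXv : Valid X := valid_root.desc l0
  have hq : Q4 W := ⟨hp1.1.le, hp1.2.le⟩
  have hlen : 1 ≤ len W := by unfold len; omega
  have h1 := (sandwich hXv.lf hq l1).1
  have h2 := (sandwich hXv.rt hq l2).2
  have h3 := ell_jump hXv W
  have h4 : (1 : ℝ) ≤ (cu X W : ℝ) - cv X W := by
    have h5 := cu_nonneg hXv hq
    have h6 := cv_nonpos hXv hq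
    have h7 := cucv_ne hXv hlen
    have : (1 : ℤ) ≤ cu X W - cv X W := by omega
    exact_mod_cast this
  have h5 := jp_nonneg hXv
  have h6 : jp X ≤ ((cu X W : ℝ) - cv X W) * jp X := le_mul_of_one_le_left h5 h4
  have h7 := abs_le.mp hs1
  have h8 := abs_le.mp hs2
  linarith [h7.2, h8.1]

/-- bad part of the sum -/
def phiB (M : ℕ) (w : Nd → ℤ × ℤ) (X : Nd) : ℝ :=
  if len (w X) ≤ (M : ℤ) ^ 2 then meas X / len (w X) else 0

lemma phiB_nonneg {M : ℕ} {w : Nd → ℤ × ℤ} {η : ℝ} (hw : WData M w η) (l : List Bool)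
    (hl : IsLeaf M (desc root l)) : 0 ≤ phiB M w (desc root l) := by
  unfold phiB
  split_ifs
  · apply div_nonneg (meas_pos hl.v).le
    have := hw.pos l hl
    have h : (0 : ℤ) ≤ len (w (desc root l)) := by unfold len; omega
    exact_mod_cast h
  · exact le_refl _

/-- direct bound for nodes of size proportional to `M` -/
lemma claimE {M V : ℕ} {w : Nd → ℤ × ℤ} {η : ℝ} (hw : WData M w η) (hP : Params M V η)
    (n : ℕ) (l0 : List Bool) (hI : Inn M n (desc root l0)) (hL : Liou (desc root l0))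
    (hV : V ≤ (desc root l0).p + (desc root l0).q) (hbig : M < 40 * ((desc root l0).p + (desc root l0).q)) :
    LS M (phiB M w) n (desc root l0) * (M : ℝ) * Real.sqrt M ≤ 2800 := by
  have hM0 : (0 : ℝ) < M := by exact_mod_cast hP.M1
  by_cases h0 : LS M (phiB M w) n (desc root l0) = 0
  · rw [h0]; simp
  obtain ⟨l1, hl1, hb1⟩ := exists_leaf_of_ne M (phiB M w) n _ hI h0
  have hbad1 : len (w (desc (desc root l0) l1)) ≤ (M : ℤ) ^ 2 := by
    unfold phiB at hb1
    split_ifs at hb1 with h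
    · exact h
    · exact absurd rfl hb1
  have hp1 : 0 < (w (desc (desc root l0) l1)).1 ∧ (w (desc (desc root l0) l1)).2 < 0 := by
    have h := hw.pos (l0 ++ l1) (by rw [desc_append]; exact hl1)
    rw [desc_append] at h
    exact h
  have hs1 : |ell (desc (desc root l0) l1) (w (desc (desc root l0) l1))| ≤ η := by
    have h := hw.small (l0 ++ l1) (by rw [desc_append]; exact hl1)
    rw [desc_append] at h
    exact h
  have hlenpos : 1 ≤ len (w (desc (desc root l0) l1)) := by unfold len; omega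
  -- compare with measure
  have hcomp : LS M (phiB M w) n (desc root l0) ≤ meas (desc root l0) / len (w (desc (desc root l0) l1)) := by
    have h1 := LS_le_desc M (phiB M w) (fun X => (1 / (len (w (desc (desc root l0) l1)) : ℝ)) * meas X) n _ hI (by
      intro l hl
      unfold phiB
      split_ifs with hb
      · have hU := claimU hw hP l0 l l1 hV hl hl1 hb hbad1
        rw [hU]
        rw [one_div, inv_mul_eq_div]
      · have : 0 < meas (desc (desc root l0) l) := meas_pos hl.v
        have h2 : (0 : ℝ) < len (w (desc (desc root l0) l1)) := by exact_mod_cast hlenpos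
        positivity)
    rw [LS_smul, LS_meas M n _ hI.v] at h1
    calc _ ≤ _ := h1
      _ = _ := by rw [one_div, inv_mul_eq_div]
  set X := desc root l0 with hX
  set W := w (desc X l1) with hW
  have hXv : Valid X := hI.v
  have hq4 : Q4 W := ⟨hp1.1.le, hp1.2.le⟩
  have hsand := sandwich hXv hq4 l1
  have hwidth := width hXv hq4
  have hdl := dl_size hXv
  have hdl0 := dl_pos hXv
  have hp0 : (1 : ℝ) ≤ X.p := by exact_mod_cast hXv.p1
  have hq0 : (1 : ℝ) ≤ X.q := by exact_mod_cast hXv.q1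
  have hlen0 : (1 : ℝ) ≤ len W := by exact_mod_cast hlenpos
  have hlenM : (len W : ℝ) ≤ (M : ℝ) ^ 2 := by exact_mod_cast hbad1
  have hsz : X.p + X.q ≤ 2 * M := by have := hI.p; have := hI.q; omega
  have hsmall := hP.small (X.p + X.q) hbig hsz
  have hwd : ((X.p : ℝ) + X.q) * len W * dl X ≤ ((X.p + X.q : ℕ) : ℝ) * (M : ℝ) ^ 2 * (16 / 4 ^ (X.p + X.q)) := by
    push_cast
    apply mul_le_mul _ hdl hdl0.le (by positivity)
    exact mul_le_mul_of_nonneg_left hlenM (by positivity)
  have hs1' := abs_le.mp hs1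
  have hη0 := hP.η0
  have hwpos : 0 ≤ ((X.p : ℝ) + X.q) * len W * dl X := by positivity
  have hP1 : |ellp X W| ≤ Real.exp (-(M / 50)) := by
    rw [abs_le]; constructor
    · linarith [hsand.2, hs1'.1]
    · linarith [hsand.1, hs1'.2]
  have hP2 : |ellm X W| ≤ Real.exp (-(M / 50)) := by
    rw [abs_le]; constructor
    · linarith [hsand.2, hs1'.1]
    · linarith [hsand.1, hs1'.2]
  -- final numeric argument
  have hfin : ∀ x y L : ℝ, 1 ≤ x → 1 ≤ y → 1 ≤ L → (M : ℝ) ≤ 80 * y → (M : ℝ) ≤ 1200 * (L * x ^ 2) →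
      1 / (x * y) / L * (M : ℝ) * Real.sqrt M ≤ 2800 := by
    intro x y L hx hy hL1 hy2 hx2
    have h1 : Real.sqrt M ≤ 35 * (x * L) := by
      rw [Real.sqrt_le_left (by positivity)]
      have h2 : L * x ^ 2 ≤ L ^ 2 * x ^ 2 := by
        apply mul_le_mul_of_nonneg_right _ (by positivity)
        nlinarith
      nlinarith
    have h2 : (M : ℝ) * Real.sqrt M ≤ (80 * y) * (35 * (x * L)) :=
      mul_le_mul hy2 h1 (Real.sqrt_nonneg _) (by positivity)
    have h3 : 1 / (x * y) / L * (M : ℝ) * Real.sqrt M = (M : ℝ) * Real.sqrt M / (x * y * L) := by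
      field_simp
    rw [h3, div_le_iff₀ (by positivity)]
    linarith
  have hM40 : (M : ℝ) ≤ 40 * (X.p + X.q) := by
    have : (M : ℝ) < ((40 * (X.p + X.q) : ℕ) : ℝ) := by exact_mod_cast hbig
    push_cast at this; linarith
  have hmul : LS M (phiB M w) n X * (M : ℝ) * Real.sqrt M ≤ meas X / len W * (M : ℝ) * Real.sqrt M := by
    apply mul_le_mul_of_nonneg_right _ (Real.sqrt_nonneg _)
    exact mul_le_mul_of_nonneg_right hcomp hM0.le
  refine hmul.trans ?_
  unfold meas
  rcases le_total X.p X.q with hpq | hpq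
  · have hL1 := hL.1 W hq4 hlenpos
    have h2 := hL1.trans hP1
    rw [Real.exp_le_exp] at h2
    have h3 : (X.p : ℝ) ≤ X.q := by exact_mod_cast hpq
    exact hfin X.p X.q (len W) hp0 hq0 hlen0 (by linarith) (by linarith)
  · have hL1 := hL.2 W hq4 hlenpos
    have h2 := hL1.trans hP2
    rw [Real.exp_le_exp] at h2
    have h3 : (X.q : ℝ) ≤ X.p := by exact_mod_cast hpq
    have h4 := hfin X.q X.p (len W) hq0 hp0 hlen0 (by linarith) (by linarith)
    rw [mul_comm (X.p : ℝ) (X.q : ℝ)]
    exact h4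

/-- bound for all nodes of size at least `V` -/
lemma claimC {M V : ℕ} {w : Nd → ℤ × ℤ} {η : ℝ} (hw : WData M w η) (hP : Params M V η)
    (n : ℕ) (l0 : List Bool) (hI : Inn M n (desc root l0)) (hL : Liou (desc root l0))
    (hV : V ≤ (desc root l0).p + (desc root l0).q) :
    LS M (phiB M w) n (desc root l0) * (M : ℝ) * Real.sqrt M ≤ 2800 := by
  induction n generalizing l0 with
  | zero =>
    apply claimE hw hP 0 l0 hI hL hV
    have := hI.s
    have := hP.M1
    omega
  | succ n ih =>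
    by_cases hbig : M < 40 * ((desc root l0).p + (desc root l0).q)
    · exact claimE hw hP (n + 1) l0 hI hL hV hbig
    · have hint : ¬ M ≤ (desc root l0).p + (desc root l0).q := by
        have := hP.M1; omega
      unfold LS
      rw [if_neg hint]
      have hlf := hI.lf hint
      have hrt := hI.rt hint
      have el : lf (desc root l0) = desc root (l0 ++ [true]) := by rw [desc_append]; rfl
      have er : rt (desc root l0) = desc root (l0 ++ [false]) := by rw [desc_append]; rfl
      have hLl := hL.lf hI.v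
      have hLr := hL.rt hI.v
      have hVl : V ≤ (lf (desc root l0)).p + (lf (desc root l0)).q := by
        simp only [Mk.lf]; omega
      have hVr : V ≤ (rt (desc root l0)).p + (rt (desc root l0)).q := by
        simp only [Mk.rt]; omega
      have ihl : LS M (phiB M w) n (lf (desc root l0)) * (M : ℝ) * Real.sqrt M ≤ 2800 := by
        rw [el] at hlf hLl hVl ⊢
        exact ih _ hlf hLl hVl
      have ihr : LS M (phiB M w) n (rt (desc root l0)) * (M : ℝ) * Real.sqrt M ≤ 2800 := by
        rw [er] at hrt hLr hVr ⊢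
        exact ih _ hrt hLr hVr
      by_cases h1 : LS M (phiB M w) n (lf (desc root l0)) = 0
      · rw [h1, zero_add]; exact ihr
      by_cases h2 : LS M (phiB M w) n (rt (desc root l0)) = 0
      · rw [h2, add_zero]; exact ihl
      exfalso
      obtain ⟨l1, hl1, hb1⟩ := exists_leaf_of_ne M (phiB M w) n _ hlf h1
      obtain ⟨l2, hl2, hb2⟩ := exists_leaf_of_ne M (phiB M w) n _ hrt h2
      have hbad1 : len (w (desc (lf (desc root l0)) l1)) ≤ (M : ℤ) ^ 2 := by
        unfold phiB at hb1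
        split_ifs at hb1 with h
        · exact h
        · exact absurd rfl hb1
      have hbad2 : len (w (desc (rt (desc root l0)) l2)) ≤ (M : ℤ) ^ 2 := by
        unfold phiB at hb2
        split_ifs at hb2 with h
        · exact h
        · exact absurd rfl hb2
      have hj := claimJ hw hP l0 l1 l2 hV hl1 hl2 hbad1 hbad2
      have hj2 := jp_lower hI.v
      have hj3 := hP.jump ((desc root l0).p + (desc root l0).q) (by omega)
      linarith

/-- reduction to level `V` -/
lemma claimD {M V : ℕ} {w : Nd → ℤ × ℤ} {η : ℝ} (hw : WData M w η) (hP : Params M V η)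
    (n : ℕ) (l0 : List Bool) (hI : Inn M n (desc root l0)) (hL : Liou (desc root l0)) :
    LS M (phiB M w) n (desc root l0) * (M : ℝ) * Real.sqrt M ≤ 2800 * LS V (fun _ => 1) n (desc root l0) := by
  induction n generalizing l0 with
  | zero =>
    have h1 : V ≤ (desc root l0).p + (desc root l0).q := by
      have := hI.s; have := hP.VM; omega
    have := claimC hw hP 0 l0 hI hL h1
    simpa [LS] using this
  | succ n ih =>
    by_cases hV : V ≤ (desc root l0).p + (desc root l0).q
    · have h1 := claimC hw hP (n + 1) l0 hI hL hV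
      have h2 : LS V (fun _ => (1 : ℝ)) (n + 1) (desc root l0) = 1 := by
        unfold LS; rw [if_pos hV]
      rw [h2, mul_one]; exact h1
    · have hint : ¬ M ≤ (desc root l0).p + (desc root l0).q := by
        have := hP.VM; omega
      have hlf := hI.lf hint
      have hrt := hI.rt hint
      have el : lf (desc root l0) = desc root (l0 ++ [true]) := by rw [desc_append]; rfl
      have er : rt (desc root l0) = desc root (l0 ++ [false]) := by rw [desc_append]; rfl
      have hLl := hL.lf hI.v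
      have hLr := hL.rt hI.v
      have ihl : LS M (phiB M w) n (lf (desc root l0)) * (M : ℝ) * Real.sqrt M ≤ 2800 * LS V (fun _ => 1) n (lf (desc root l0)) := by
        rw [el] at hlf hLl ⊢
        exact ih _ hlf hLl
      have ihr : LS M (phiB M w) n (rt (desc root l0)) * (M : ℝ) * Real.sqrt M ≤ 2800 * LS V (fun _ => 1) n (rt (desc root l0)) := by
        rw [er] at hrt hLr ⊢
        exact ih _ hrt hLr
      unfold LS
      rw [if_neg hint, if_neg hV]
      calc _ = LS M (phiB M w) n (lf (desc root l0)) * (M : ℝ) * Real.sqrt M + LS M (phiB M w) n (rt (desc root l0)) * (M : ℝ) * Real.sqrt M := by ring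
        _ ≤ _ := add_le_add ihl ihr
        _ = _ := by ring

/-- the main weighted leaf sum -/
theorem propK {M V : ℕ} {w : Nd → ℤ × ℤ} {η : ℝ} (hw : WData M w η) (hP : Params M V η) :
    LS M (fun X => meas X / len (w X)) M root ≤ 2800 * (V : ℝ) ^ 2 / (M * Real.sqrt M) + 1 / (M : ℝ) ^ 2 := by
  have hM0 : (0 : ℝ) < M := by exact_mod_cast hP.M1
  have hM2 : 2 ≤ M := le_trans hP.V2 hP.VM
  have hI : Inn M M (desc root []) := by
    refine ⟨valid_root, ?_, ?_, ?_⟩ <;> simp [desc, root] <;> omega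
  have hIV : Inn V M (desc root []) := by
    refine ⟨valid_root, ?_, ?_, ?_⟩ <;> simp [desc, root] <;> have := hP.V2 <;> have := hP.VM <;> omega
  have h1 := claimD hw hP M [] hI liou_root
  have h2 := LS_one_le V M _ hIV
  have h3 : meas (desc root []) = 1 := by unfold meas desc root; norm_num
  rw [h3, mul_one] at h2
  have h4 : LS M (phiB M w) M root ≤ 2800 * (V : ℝ) ^ 2 / (M * Real.sqrt M) := by
    rw [le_div_iff₀ (by positivity)]
    calc LS M (phiB M w) M root * (M * Real.sqrt M) = LS M (phiB M w) M (desc root []) * M * Real.sqrt M := by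
          show LS M (phiB M w) M root * (M * Real.sqrt M) = LS M (phiB M w) M root * M * Real.sqrt M
          ring
      _ ≤ 2800 * LS V (fun _ => 1) M (desc root []) := h1
      _ ≤ 2800 * (V : ℝ) ^ 2 := by linarith
  have h5 : LS M (fun X => meas X / len (w X)) M root ≤ LS M (fun X => phiB M w X + (1 / (M : ℝ) ^ 2) * meas X) M root := by
    apply LS_le_desc M _ _ M root hI
    intro l hl
    have hm := meas_pos hl.v
    unfold phiB
    split_ifs with hb
    · have : 0 ≤ 1 / (M : ℝ) ^ 2 * meas (desc root l) := by positivity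
      linarith
    · rw [zero_add, div_eq_mul_inv, mul_comm]
      apply mul_le_mul_of_nonneg_right _ hm.le
      rw [← one_div]
      apply one_div_le_one_div_of_le (by positivity)
      push Not at hb
      exact_mod_cast hb.le
  rw [LS_add, LS_smul, LS_meas M M root valid_root] at h5
  have h6 : meas root = 1 := h3
  rw [h6, mul_one] at h5
  linarith

end

end Pool.Agent.H409R2.MZ.Mk
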