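import Mathlib

set_option autoImplicit false

namespace Pool.Agent.H409R2.MZ.Tri

noncomputable section

open Finset

/-- sum of residues over a full period -/
lemma sum_emod (m p : ℤ) (q : ℕ) (hq : 0 < q) (hcop : IsCoprime p (q : ℤ)) :
    ∑ k ∈ range q, (m - k * p) % (q : ℤ) = ∑ s ∈ range q, (s : ℤ) := by
  have hq' : (0 : ℤ) < q := by exact_mod_cast hq
  set f : ℕ → ℕ := fun k => ((m - k * p) % (q : ℤ)).toNat with hf
  have hfv : ∀ k, ((f k : ℕ) : ℤ) = (m - k * p) % (q : ℤ) := by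
    intro k
    simp only [hf]
    rw [Int.toNat_of_nonneg (Int.emod_nonneg _ hq'.ne')]
  have hinj : Set.InjOn f (range q : Finset ℕ) := by
    intro k hk k' hk' h
    rw [mem_coe, mem_range] at hk hk'
    have h1 : (m - k * p) % (q : ℤ) = (m - k' * p) % (q : ℤ) := by rw [← hfv, ← hfv, h]
    have h2 : (q : ℤ) ∣ (m - k * p) - (m - k' * p) :=
      Int.dvd_of_emod_eq_zero (Int.emod_eq_emod_iff_emod_sub_eq_zero.mp h1)
    have h3 : (q : ℤ) ∣ ((k' : ℤ) - k) * p := by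
      have : (m - k * p) - (m - k' * p) = ((k' : ℤ) - k) * p := by ring
      rwa [this] at h2
    have h4 : (q : ℤ) ∣ ((k' : ℤ) - k) := hcop.symm.dvd_of_dvd_mul_right h3
    obtain ⟨r, hr⟩ := h4
    have h5 : ((k' : ℤ) - k) < q := by omega
    have h6 : -(q : ℤ) < ((k' : ℤ) - k) := by omega
    have hr0 : r = 0 := by
      rcases lt_trichotomy r 0 with h | h | h
      · nlinarith
      · exact h
      · nlinarith
    rw [hr0] at hr
    omega
  have himg : (range q).image f = range q := by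
    apply eq_of_subset_of_card_le
    · intro x hx
      rw [mem_image] at hx
      obtain ⟨k, _, rfl⟩ := hx
      rw [mem_range]
      have := Int.emod_lt_of_pos (m - k * p) hq'
      rw [← hfv] at this
      exact_mod_cast this
    · rw [card_image_of_injOn hinj]
  calc ∑ k ∈ range q, (m - k * p) % (q : ℤ) = ∑ k ∈ range q, ((f k : ℕ) : ℤ) := by
        apply sum_congr rfl; intro k _; rw [hfv]
    _ = ∑ s ∈ (range q).image f, (s : ℤ) := by rw [sum_image hinj]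
    _ = ∑ s ∈ range q, (s : ℤ) := by rw [himg]

lemma sum_range_real (q : ℕ) : ∑ s ∈ range q, (s : ℝ) = (q : ℝ) * (q - 1) / 2 := by
  induction q with
  | zero => simp
  | succ n ih => rw [sum_range_succ, ih]; push_cast; ring

lemma sum_ediv (m p : ℤ) (q : ℕ) (hq : 0 < q) (hcop : IsCoprime p (q : ℤ)) :
    ((∑ k ∈ range q, (m - k * p) / (q : ℤ) : ℤ) : ℝ) = m - (p + 1) * (q - 1) / 2 := by
  have hq' : (0 : ℝ) < q := by exact_mod_cast hq
  have h1 := sum_emod m p q hq hcop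
  have h2 : ∑ k ∈ range q, (m - k * p) = (q : ℤ) * ∑ k ∈ range q, (m - k * p) / (q : ℤ) + ∑ k ∈ range q, (m - k * p) % (q : ℤ) := by
    rw [mul_sum, ← sum_add_distrib]
    apply sum_congr rfl
    intro k _
    exact (Int.mul_ediv_add_emod _ _).symm
  rw [h1] at h2
  have h3 : (∑ k ∈ range q, ((m : ℝ) - k * p)) = (q : ℝ) * ((∑ k ∈ range q, (m - k * p) / (q : ℤ) : ℤ) : ℝ) + ∑ s ∈ range q, (s : ℝ) := by
    have h4 := congrArg (Int.cast : ℤ → ℝ) h2
    push_cast at h4 ⊢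
    exact h4
  rw [sum_sub_distrib, sum_const, card_range, nsmul_eq_mul, ← sum_mul, sum_range_real] at h3
  have h4 : (q : ℝ) * ((∑ k ∈ range q, (m - k * p) / (q : ℤ) : ℤ) : ℝ) = q * (m - (p + 1) * (q - 1) / 2) := by
    linarith
  exact mul_left_cancel₀ hq'.ne' h4

/-- block estimate -/
lemma block (θ γ : ℝ) (p : ℤ) (q : ℕ) (hq : 0 < q) (hcop : IsCoprime p (q : ℤ))
    (h : |γ - p / q| ≤ 1 / (q : ℝ) ^ 2) :
    |∑ k ∈ range q, (Int.fract (θ - k * γ) - 1 / 2)| ≤ 3 := by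
  have hq' : (0 : ℝ) < q := by exact_mod_cast hq
  have hqz : (0 : ℤ) < q := by exact_mod_cast hq
  set n : ℤ := ⌊(q : ℝ) * θ⌋ with hn
  have hn1 : (n : ℝ) ≤ q * θ := Int.floor_le _
  have hn2 : (q : ℝ) * θ < n + 1 := Int.lt_floor_add_one _
  set e : ℝ := γ - p / q with he
  have hγ : γ = p / q + e := by rw [he]; ring
  have heb := abs_le.mp h
  -- k e bound
  have hke : ∀ k ∈ range q, |(k : ℝ) * ((q : ℝ) * e)| ≤ 1 := by
    intro k hk
    rw [mem_range] at hk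
    have hk' : (k : ℝ) ≤ q := by exact_mod_cast hk.le
    rw [abs_mul, abs_mul, abs_of_nonneg (by positivity : (0 : ℝ) ≤ k), abs_of_pos hq']
    calc (k : ℝ) * (q * |e|) ≤ q * (q * (1 / (q : ℝ) ^ 2)) := by
          apply mul_le_mul hk' _ (by positivity) hq'.le
          exact mul_le_mul_of_nonneg_left h hq'.le
      _ = 1 := by field_simp
  have hfl : ∀ k ∈ range q, (n - 1 - k * p) / (q : ℤ) ≤ ⌊θ - k * γ⌋ ∧ ⌊θ - k * γ⌋ ≤ (n + 2 - k * p) / (q : ℤ) := by
    intro k hk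
    have h1 := abs_le.mp (hke k hk)
    have h2 : (q : ℝ) * (θ - k * γ) = q * θ - k * p - k * (q * e) := by
      rw [hγ]; field_simp; ring
    constructor
    · rw [Int.le_floor]
      have h3 : (((n - 1 - k * p) / (q : ℤ) : ℤ) : ℝ) * q ≤ ((n - 1 - k * p : ℤ) : ℝ) := by
        exact_mod_cast Int.ediv_mul_le _ hqz.ne'
      push_cast at h3
      have h4 : (((n - 1 - k * p) / (q : ℤ) : ℤ) : ℝ) * q ≤ (θ - k * γ) * q := by
        rw [mul_comm (θ - k * γ) (q : ℝ), h2]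
        linarith [h1.1, h1.2]
      exact le_of_mul_le_mul_right h4 hq'
    · rw [Int.le_ediv_iff_mul_le hqz]
      have h3 : ((⌊θ - k * γ⌋ : ℤ) : ℝ) ≤ θ - k * γ := Int.floor_le _
      have h4 : ((⌊θ - k * γ⌋ : ℤ) : ℝ) * q ≤ q * (θ - k * γ) := by nlinarith
      rw [h2] at h4
      have h5 : ((⌊θ - k * γ⌋ * (q : ℤ) : ℤ) : ℝ) < ((n + 2 - k * p + 1 : ℤ) : ℝ) := by
        push_cast
        linarith [h1.1, h1.2]
      have h6 : ⌊θ - k * γ⌋ * (q : ℤ) < n + 2 - k * p + 1 := by exact_mod_cast h5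
      omega
  have hS1 : ((∑ k ∈ range q, (n - 1 - k * p) / (q : ℤ) : ℤ) : ℝ) ≤ ∑ k ∈ range q, ((⌊θ - k * γ⌋ : ℤ) : ℝ) := by
    push_cast
    apply sum_le_sum
    intro k hk
    exact_mod_cast (hfl k hk).1
  have hS2 : ∑ k ∈ range q, ((⌊θ - k * γ⌋ : ℤ) : ℝ) ≤ ((∑ k ∈ range q, (n + 2 - k * p) / (q : ℤ) : ℤ) : ℝ) := by
    push_cast
    apply sum_le_sum
    intro k hk
    exact_mod_cast (hfl k hk).2
  rw [sum_ediv _ _ _ hq hcop] at hS1 hS2
  push_cast at hS1 hS2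
  have hsum : ∑ k ∈ range q, (Int.fract (θ - k * γ) - 1 / 2) =
      q * θ - γ * (q * (q - 1) / 2) - ∑ k ∈ range q, ((⌊θ - k * γ⌋ : ℤ) : ℝ) - q / 2 := by
    have h1 : ∀ k ∈ range q, Int.fract (θ - k * γ) - 1 / 2 = (θ - (k : ℝ) * γ) - ((⌊θ - k * γ⌋ : ℤ) : ℝ) - 1 / 2 := by
      intro k _
      rw [Int.fract]
    rw [sum_congr rfl h1, sum_sub_distrib, sum_sub_distrib, sum_sub_distrib, sum_const, sum_const, card_range,
      nsmul_eq_mul, nsmul_eq_mul, ← sum_mul, sum_range_real]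
    ring
  rw [hsum]
  have hγ2 : γ * (q * (q - 1) / 2) = p * (q - 1) / 2 + e * (q * (q - 1) / 2) := by
    rw [hγ]; field_simp
  rw [hγ2]
  have he2 : |e * (q * (q - 1) / 2)| ≤ 1 / 2 := by
    have hq1 : (1 : ℝ) ≤ q := by exact_mod_cast hq
    rw [abs_mul, abs_of_nonneg (by nlinarith : (0 : ℝ) ≤ q * (q - 1) / 2)]
    calc |e| * (q * (q - 1) / 2) ≤ 1 / (q : ℝ) ^ 2 * (q * (q - 1) / 2) :=
          mul_le_mul_of_nonneg_right h (by nlinarith)
      _ = (q - 1) / q / 2 := by field_simp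
      _ ≤ 1 / 2 := by
          have : (q - 1 : ℝ) / q ≤ 1 := by rw [div_le_one hq']; linarith
          linarith
  have he3 := abs_le.mp he2
  rw [abs_le]
  constructor <;> nlinarith [he3.1, he3.2]

/-- long sum estimate -/
lemma long_sum (γ : ℝ) (p : ℤ) (q : ℕ) (hq : 0 < q) (hcop : IsCoprime p (q : ℤ))
    (h : |γ - p / q| ≤ 1 / (q : ℝ) ^ 2) (θ : ℝ) (J : ℕ) :
    |∑ k ∈ range J, (Int.fract (θ - k * γ) - 1 / 2)| ≤ 3 * (J / q) + q / 2 := by
  have hq' : (0 : ℝ) < q := by exact_mod_cast hq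
  have hblocks : ∀ n : ℕ, |∑ k ∈ range (q * n), (Int.fract (θ - k * γ) - 1 / 2)| ≤ 3 * n := by
    intro n
    induction n with
    | zero => simp
    | succ n ih =>
      rw [mul_add, mul_one, sum_range_add]
      have h1 := block (θ - (q * n : ℕ) * γ) γ p q hq hcop h
      have h2 : ∑ x ∈ range q, (Int.fract (θ - ((q * n + x : ℕ) : ℝ) * γ) - 1 / 2) =
          ∑ k ∈ range q, (Int.fract (θ - (q * n : ℕ) * γ - k * γ) - 1 / 2) := by
        apply sum_congr rfl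
        intro k _
        congr 2
        push_cast; ring
      rw [h2]
      refine (abs_add_le _ _).trans ((add_le_add ih h1).trans ?_)
      push_cast
      linarith
  have hJ : J = q * (J / q) + J % q := (Nat.div_add_mod J q).symm
  conv_lhs => rw [hJ, sum_range_add]
  have hr : |∑ x ∈ range (J % q), (Int.fract (θ - ((q * (J / q) + x : ℕ) : ℝ) * γ) - 1 / 2)| ≤ q / 2 := by
    calc |∑ x ∈ range (J % q), (Int.fract (θ - ((q * (J / q) + x : ℕ) : ℝ) * γ) - 1 / 2)|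
        ≤ ∑ x ∈ range (J % q), |Int.fract (θ - ((q * (J / q) + x : ℕ) : ℝ) * γ) - 1 / 2| := abs_sum_le_sum_abs _ _
      _ ≤ ∑ x ∈ range (J % q), (1 / 2 : ℝ) := by
          apply sum_le_sum
          intro x _
          have h1 := Int.fract_nonneg (θ - ((q * (J / q) + x : ℕ) : ℝ) * γ)
          have h2 := Int.fract_lt_one (θ - ((q * (J / q) + x : ℕ) : ℝ) * γ)
          rw [abs_le]; constructor <;> linarith
      _ = ((J % q : ℕ) : ℝ) * (1 / 2) := by rw [sum_const, card_range, nsmul_eq_mul]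
      _ ≤ q / 2 := by
          have : ((J % q : ℕ) : ℝ) ≤ q := by exact_mod_cast (Nat.mod_lt J hq).le
          linarith
  have hb := hblocks (J / q)
  have hdiv : ((J / q : ℕ) : ℝ) ≤ (J : ℝ) / q := Nat.cast_div_le
  refine (abs_add_le _ _).trans ((add_le_add hb hr).trans ?_)
  linarith

/-- number of positive lattice points in a triangle -/
def tri (α β t : ℝ) : ℕ := Set.ncard {z : ℕ × ℕ | 0 < z.1 ∧ 0 < z.2 ∧ z.1 * α + z.2 * β ≤ t}

lemma tri_set_eq (α β t : ℝ) (hα : 0 < α) (hβ : 0 < β) (ht : 0 ≤ t) :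
    {z : ℕ × ℕ | 0 < z.1 ∧ 0 < z.2 ∧ z.1 * α + z.2 * β ≤ t} =
    (((Ioc 0 ⌊t / β⌋₊).biUnion (fun j => (Ioc 0 ⌊(t - j * β) / α⌋₊).image (fun i => (i, j))) : Finset (ℕ × ℕ)) : Set (ℕ × ℕ)) := by
  ext z
  rw [mem_coe, mem_biUnion]
  constructor
  · rintro ⟨h1, h2, h3⟩
    have hz1 : (0 : ℝ) < z.1 := by exact_mod_cast h1
    refine ⟨z.2, ?_, ?_⟩
    · rw [mem_Ioc]
      refine ⟨h2, ?_⟩
      apply Nat.le_floor
      rw [le_div_iff₀ hβ]
      nlinarith
    · rw [mem_image]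
      refine ⟨z.1, ?_, rfl⟩
      rw [mem_Ioc]
      refine ⟨h1, ?_⟩
      apply Nat.le_floor
      rw [le_div_iff₀ hα]
      linarith
  · rintro ⟨j, hj, hz⟩
    rw [mem_image] at hz
    obtain ⟨i, hi, rfl⟩ := hz
    rw [mem_Ioc] at hi hj
    refine ⟨hi.1, hj.1, ?_⟩
    have hpos : 0 ≤ (t - j * β) / α := by
      apply div_nonneg _ hα.le
      have : (j : ℝ) ≤ t / β := (Nat.le_floor_iff (by positivity)).mp hj.2
      rw [le_div_iff₀ hβ] at this
      linarith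
    have := (Nat.le_floor_iff hpos).mp hi.2
    rw [le_div_iff₀ hα] at this
    simp only
    linarith

lemma tri_finite (α β t : ℝ) (hα : 0 < α) (hβ : 0 < β) :
    {z : ℕ × ℕ | 0 < z.1 ∧ 0 < z.2 ∧ z.1 * α + z.2 * β ≤ t}.Finite := by
  by_cases ht : 0 ≤ t
  · rw [tri_set_eq α β t hα hβ ht]
    exact Finset.finite_toSet _
  · push Not at ht
    convert! Set.finite_empty
    ext z
    simp only [Set.mem_ofPred_eq, Set.mem_empty_iff_false, iff_false]
    rintro ⟨h1, h2, h3⟩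
    have hz1 : (0 : ℝ) < z.1 := by exact_mod_cast h1
    have hz2 : (0 : ℝ) < z.2 := by exact_mod_cast h2
    nlinarith [mul_pos hz1 hα, mul_pos hz2 hβ]

lemma tri_eq_sum (α β t : ℝ) (hα : 0 < α) (hβ : 0 < β) (ht : 0 ≤ t) :
    tri α β t = ∑ j ∈ Ioc 0 ⌊t / β⌋₊, ⌊(t - j * β) / α⌋₊ := by
  unfold tri
  rw [tri_set_eq α β t hα hβ ht, Set.ncard_coe_finset, card_biUnion]
  · apply sum_congr rfl
    intro j _
    rw [card_image_of_injective _ (fun x y h => (Prod.mk.inj h).1)]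
    simp
  · intro x _ y _ hxy
    simp only [Function.onFun]
    rw [disjoint_left]
    intro z hz1 hz2
    rw [mem_image] at hz1 hz2
    obtain ⟨i, _, rfl⟩ := hz1
    obtain ⟨i', _, h⟩ := hz2
    exact hxy (Prod.mk.inj h).2.symm

/-- main estimate for `tri` -/
theorem tri_estimate (α β t : ℝ) (hα : 0 < α) (hβ : 0 < β) (ht : 0 ≤ t) (p : ℤ) (q : ℕ) (hq : 0 < q)
    (hcop : IsCoprime p (q : ℤ)) (h : |β / α - p / q| ≤ 1 / (q : ℝ) ^ 2) :
    |(tri α β t : ℝ) + t / 2 * (1 / α + 1 / β) - t ^ 2 / (2 * α * β)| ≤ β / α + 1 + 3 * (t / (β * q)) + q := by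
  rw [tri_eq_sum α β t hα hβ ht]
  set J := ⌊t / β⌋₊ with hJ
  have hJ1 : (J : ℝ) ≤ t / β := Nat.floor_le (by positivity)
  have hJ2 : t / β < J + 1 := Nat.lt_floor_add_one _
  have hq' : (0 : ℝ) < q := by exact_mod_cast hq
  have hfl : ∀ j ∈ Ioc 0 J, ((⌊(t - j * β) / α⌋₊ : ℕ) : ℝ) = (t - j * β) / α - Int.fract ((t - j * β) / α) := by
    intro j hj
    rw [mem_Ioc] at hj
    have h1 : (j : ℝ) ≤ t / β := le_trans (by exact_mod_cast hj.2) hJ1
    rw [le_div_iff₀ hβ] at h1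
    have h2 : 0 ≤ (t - j * β) / α := div_nonneg (by linarith) hα.le
    rw [natCast_floor_eq_intCast_floor h2, Int.self_sub_fract]
  have hcast : ((∑ j ∈ Ioc 0 J, ⌊(t - j * β) / α⌋₊ : ℕ) : ℝ) =
      ∑ j ∈ Ioc 0 J, ((t - j * β) / α - 1 / 2) - ∑ j ∈ Ioc 0 J, (Int.fract ((t - j * β) / α) - 1 / 2) := by
    push_cast
    rw [← sum_sub_distrib]
    apply sum_congr rfl
    intro j hj
    rw [hfl j hj]; ring
  rw [hcast]
  have hmain : ∑ j ∈ Ioc 0 J, ((t - j * β) / α - 1 / 2) = (J * t - β * (J * (J + 1) / 2)) / α - J / 2 := by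
    have : ∀ n : ℕ, ∑ j ∈ Ioc 0 n, ((t - j * β) / α - 1 / 2) = (n * t - β * (n * (n + 1) / 2)) / α - n / 2 := by
      intro n
      induction n with
      | zero => simp
      | succ n ih =>
        rw [sum_Ioc_succ_top (by omega), ih]
        push_cast
        field_simp
        ring
    exact this J
  rw [hmain]
  have hosc : |∑ j ∈ Ioc 0 J, (Int.fract ((t - j * β) / α) - 1 / 2)| ≤ 3 * (J / q) + q / 2 := by
    have h1 := long_sum (β / α) p q hq hcop h ((t - β) / α) J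
    have h2 : ∑ j ∈ Ioc 0 J, (Int.fract ((t - j * β) / α) - 1 / 2) =
        ∑ k ∈ range J, (Int.fract ((t - β) / α - k * (β / α)) - 1 / 2) := by
      rw [← Nat.Ico_zero_eq_range]
      have : Ioc 0 J = (Ico 0 J).image (fun k => k + 1) := by
        ext x
        simp only [mem_Ioc, mem_image, mem_Ico]
        constructor
        · rintro ⟨h1, h2⟩
          exact ⟨x - 1, by omega, by omega⟩
        · rintro ⟨y, hy, rfl⟩
          omega
      rw [this, sum_image (fun x _ y _ h => by omega)]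
      apply sum_congr rfl
      intro k _
      congr 2
      push_cast
      ring
    rw [h2]; exact h1
  have hosc' := abs_le.mp hosc
  have hJq : (J : ℝ) / q ≤ t / (β * q) := by
    calc (J : ℝ) / q ≤ (t / β) / q := div_le_div_of_nonneg_right hJ1 hq'.le
      _ = t / (β * q) := by rw [div_div]
  -- write t/β = J + θ
  set θ := t / β - J with hθ
  have hθ0 : 0 ≤ θ := by rw [hθ]; linarith
  have hθ1 : θ < 1 := by rw [hθ]; linarith
  have htβ : t = β * (J + θ) := by rw [hθ]; field_simp; ring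
  have hid : (J * t - β * (J * (J + 1) / 2)) / α - J / 2 + t / 2 * (1 / α + 1 / β) - t ^ 2 / (2 * α * β)
      = (β / α) * (θ * (1 - θ) / 2) + θ / 2 := by
    rw [htβ]
    field_simp
    ring
  have hθθ : 0 ≤ θ * (1 - θ) := mul_nonneg hθ0 (by linarith)
  have hθθ2 : θ * (1 - θ) ≤ 1 := by nlinarith
  have hβα : 0 < β / α := by positivity
  have hA : 0 ≤ (β / α) * (θ * (1 - θ) / 2) := by positivity
  have hB : (β / α) * (θ * (1 - θ) / 2) ≤ β / α := by nlinarith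
  have hrew : (J * t - β * (J * (J + 1) / 2)) / α - J / 2 - ∑ j ∈ Ioc 0 J, (Int.fract ((t - j * β) / α) - 1 / 2)
      + t / 2 * (1 / α + 1 / β) - t ^ 2 / (2 * α * β) =
      ((β / α) * (θ * (1 - θ) / 2) + θ / 2) - ∑ j ∈ Ioc 0 J, (Int.fract ((t - j * β) / α) - 1 / 2) := by
    rw [← hid]; ring
  rw [hrew, abs_le]
  constructor <;> linarith [hosc'.1, hosc'.2]

end

end Pool.Agent.H409R2.MZ.Tri
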