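import Mathlib
import Pool.Agent.H409R2.MZ.Leaf
import Pool.Agent.H409R2.MZ.Tri

set_option autoImplicit false

namespace Pool.Agent.H409R2.MZ.Mk

open Pool.Agent.H409R2.MZ.Tri

noncomputable section

/-- coprime pairs attached to paths -/
def pt : List Bool → ℕ × ℕ
  | [] => (1, 1)
  | (true :: l) => ((pt l).1 + (pt l).2, (pt l).2)
  | (false :: l) => ((pt l).1, (pt l).1 + (pt l).2)

lemma pt_pos (l : List Bool) : 0 < (pt l).1 ∧ 0 < (pt l).2 := by
  induction l with
  | nil => simp [pt]
  | cons b l ih => cases b <;> simp only [pt] <;> omega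

lemma ga_upper {X : Nd} (h : Valid X) (l : List Bool) :
    ga (desc X l) ≤ (pt l).1 * al X + (pt l).2 * be X := by
  induction l generalizing X with
  | nil =>
    have := ga_le h
    simp only [desc, pt, Nat.cast_one, one_mul]
    exact this
  | cons b l ih =>
    cases b
    · have h1 := ih h.rt
      simp only [desc, pt]
      rw [al_rt, be_rt] at h1
      have h2 := ga_le h
      have h3 : (0 : ℝ) ≤ (pt l).1 := by positivity
      push_cast
      nlinarith
    · have h1 := ih h.lf
      simp only [desc, pt]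
      rw [al_lf, be_lf] at h1
      have h2 := ga_le h
      have h3 : (0 : ℝ) ≤ (pt l).2 := by positivity
      push_cast
      nlinarith

lemma ga_lower' {X : Nd} (h : Valid X) (l : List Bool) :
    (pt l).1 * al X + (pt l).2 * be X - 2 * dl X * (min (pt l).1 (pt l).2 : ℕ) ≤ ga (desc X l) := by
  induction l generalizing X with
  | nil =>
    have h1 := ga_ge h
    have h2 := dl_pos h
    simp only [desc, pt, Nat.cast_one, one_mul, min_self, mul_one]
    linarith
  | cons b l ih =>
    have hd := dl_pos h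
    cases b
    · have h1 := ih h.rt
      simp only [desc, pt]
      rw [al_rt, be_rt] at h1
      have h2 := ga_ge h
      have h3 : (0 : ℝ) ≤ (pt l).1 := by positivity
      have hm : min (pt l).1 ((pt l).1 + (pt l).2) = (pt l).1 := min_eq_left (by omega)
      rw [hm]
      have hmm : ((min (pt l).1 (pt l).2 : ℕ) : ℝ) ≤ (pt l).1 := by exact_mod_cast min_le_left _ _
      have hm0 : (0 : ℝ) ≤ ((min (pt l).1 (pt l).2 : ℕ) : ℝ) := by positivity
      have hdr := dl_rt h
      have hdr0 := dl_pos h.rt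
      have h4 : 2 * dl (rt X) * ((min (pt l).1 (pt l).2 : ℕ) : ℝ) ≤ 2 * (dl X / 4) * (pt l).1 := by
        apply mul_le_mul _ hmm hm0 (by positivity)
        linarith
      have h5 : ((pt l).1 : ℝ) * (al X + be X - dl X) ≤ (pt l).1 * ga X := mul_le_mul_of_nonneg_left h2 h3
      have h6 : 0 ≤ dl X * ((pt l).1 : ℝ) := by positivity
      push_cast
      linarith
    · have h1 := ih h.lf
      simp only [desc, pt]
      rw [al_lf, be_lf] at h1
      have h2 := ga_ge h
      have h3 : (0 : ℝ) ≤ (pt l).2 := by positivity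
      have hm : min ((pt l).1 + (pt l).2) (pt l).2 = (pt l).2 := min_eq_right (by omega)
      rw [hm]
      have hmm : ((min (pt l).1 (pt l).2 : ℕ) : ℝ) ≤ (pt l).2 := by exact_mod_cast min_le_right _ _
      have hm0 : (0 : ℝ) ≤ ((min (pt l).1 (pt l).2 : ℕ) : ℝ) := by positivity
      have hdr := dl_lf h
      have hdr0 := dl_pos h.lf
      have h4 : 2 * dl (lf X) * ((min (pt l).1 (pt l).2 : ℕ) : ℝ) ≤ 2 * (dl X / 4) * (pt l).2 := by
        apply mul_le_mul _ hmm hm0 (by positivity)
        linarith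
      have h5 : ((pt l).2 : ℝ) * (al X + be X - dl X) ≤ (pt l).2 * ga X := mul_le_mul_of_nonneg_left h2 h3
      have h6 : 0 ≤ dl X * ((pt l).2 : ℝ) := by positivity
      push_cast
      linarith

/-- the map to lattice points -/
def em (z : List Bool × ℕ) : ℕ × ℕ := (z.2 * (pt z.1).1, z.2 * (pt z.1).2)

lemma em_inj (l l' : List Bool) (k k' : ℕ) (hk : 0 < k) (hk' : 0 < k')
    (h1 : k * (pt l).1 = k' * (pt l').1) (h2 : k * (pt l).2 = k' * (pt l').2) : l = l' ∧ k = k' := by
  induction l generalizing l' with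
  | nil =>
    cases l' with
    | nil => simp only [pt] at h1; exact ⟨rfl, by omega⟩
    | cons b l' =>
      exfalso
      have hp := pt_pos l'
      cases b
      · simp only [pt] at h1 h2
        have : 0 < k' * (pt l').2 := Nat.mul_pos hk' hp.2
        rw [mul_add] at h2; omega
      · simp only [pt] at h1 h2
        have : 0 < k' * (pt l').1 := Nat.mul_pos hk' hp.1
        rw [mul_add] at h1; omega
  | cons b l ih =>
    have hp := pt_pos l
    cases l' with
    | nil =>
      exfalso
      cases b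
      · simp only [pt] at h1 h2
        have : 0 < k * (pt l).2 := Nat.mul_pos hk hp.2
        rw [mul_add] at h2; omega
      · simp only [pt] at h1 h2
        have : 0 < k * (pt l).1 := Nat.mul_pos hk hp.1
        rw [mul_add] at h1; omega
    | cons b' l' =>
      have hp' := pt_pos l'
      have a1 : 0 < k * (pt l).1 := Nat.mul_pos hk hp.1
      have a2 : 0 < k * (pt l).2 := Nat.mul_pos hk hp.2
      have a3 : 0 < k' * (pt l').1 := Nat.mul_pos hk' hp'.1
      have a4 : 0 < k' * (pt l').2 := Nat.mul_pos hk' hp'.2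
      cases b <;> cases b'
      · simp only [pt, mul_add] at h1 h2
        obtain ⟨e1, e2⟩ := ih l' h1 (by omega)
        exact ⟨by rw [e1], e2⟩
      · exfalso
        simp only [pt, mul_add] at h1 h2
        omega
      · exfalso
        simp only [pt, mul_add] at h1 h2
        omega
      · simp only [pt, mul_add] at h1 h2
        obtain ⟨e1, e2⟩ := ih l' (by omega) h2
        exact ⟨by rw [e1], e2⟩

lemma em_surj (n : ℕ) : ∀ i j : ℕ, i + j ≤ n → 0 < i → 0 < j → ∃ l k, 0 < k ∧ em (l, k) = (i, j) := by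
  induction n with
  | zero => intro i j h hi hj; omega
  | succ n ih =>
    intro i j h hi hj
    rcases lt_trichotomy i j with hlt | heq | hgt
    · obtain ⟨l, k, hk, he⟩ := ih i (j - i) (by omega) hi (by omega)
      refine ⟨false :: l, k, hk, ?_⟩
      unfold em at he ⊢
      have e1 := (Prod.mk.inj he).1
      have e2 := (Prod.mk.inj he).2
      simp only [pt, mul_add] at e1 e2 ⊢
      rw [e1, e2]
      congr 1; omega
    · subst heq
      exact ⟨[], i, hi, by simp [em, pt]⟩
    · obtain ⟨l, k, hk, he⟩ := ih (i - j) j (by omega) (by omega) hj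
      refine ⟨true :: l, k, hk, ?_⟩
      unfold em at he ⊢
      have e1 := (Prod.mk.inj he).1
      have e2 := (Prod.mk.inj he).2
      simp only [pt, mul_add] at e1 e2 ⊢
      rw [e1, e2]
      congr 1; omega

/-- the counting set of a node -/
def SS (X : Nd) (t : ℝ) : Set (List Bool × ℕ) := {z | 0 < z.2 ∧ (z.2 : ℝ) * ga (desc X z.1) ≤ t}

def cnt (X : Nd) (t : ℝ) : ℕ := (SS X t).ncard

lemma em_injOn (X : Nd) (t : ℝ) : Set.InjOn em (SS X t) := by
  rintro ⟨l, k⟩ hz ⟨l', k'⟩ hz' h
  unfold em at h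
  obtain ⟨e1, e2⟩ := em_inj l l' k k' hz.1 hz'.1 (Prod.mk.inj h).1 (Prod.mk.inj h).2
  rw [e1, e2]

lemma em_image_subset {X : Nd} (h : Valid X) (hd : dl X ≤ 1 / 4) (t : ℝ) :
    em '' (SS X t) ⊆ {z : ℕ × ℕ | 0 < z.1 ∧ 0 < z.2 ∧ z.1 * al X + z.2 * be X ≤ t * (1 + 2 * dl X)} := by
  rintro z ⟨⟨l, k⟩, ⟨hk, hz⟩, rfl⟩
  have hp := pt_pos l
  simp only at hk hz
  refine ⟨Nat.mul_pos hk hp.1, Nat.mul_pos hk hp.2, ?_⟩
  have h1 := ga_lower' h l
  have h2 := al_lower h
  have h3 := be_lower h
  have hd0 := dl_pos h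
  have hk0 : (0 : ℝ) < k := by exact_mod_cast hk
  set i : ℝ := ((pt l).1 : ℝ) with hi
  set j : ℝ := ((pt l).2 : ℝ) with hj
  have hi0 : 0 ≤ i := by positivity
  have hj0 : 0 ≤ j := by positivity
  set m : ℝ := ((min (pt l).1 (pt l).2 : ℕ) : ℝ) with hm
  have hmi : m ≤ i := by rw [hm, hi]; exact_mod_cast min_le_left _ _
  have hmj : m ≤ j := by rw [hm, hj]; exact_mod_cast min_le_right _ _
  have hm0 : 0 ≤ m := by positivity
  set s := i * al X + j * be X with hs
  have hms : 3 / 2 * m ≤ s := by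
    have e1 : m * (3 / 4) ≤ i * al X := mul_le_mul hmi h2 (by norm_num) hi0
    have e2 : m * (3 / 4) ≤ j * be X := mul_le_mul hmj h3 (by norm_num) hj0
    linarith
  have hs0 : 0 ≤ s := by linarith
  have h4 : s * (1 - 4 / 3 * dl X) ≤ ga (desc X l) := by nlinarith
  have h5 : s ≤ ga (desc X l) * (1 + 2 * dl X) := by
    have e1 : 1 ≤ (1 - 4 / 3 * dl X) * (1 + 2 * dl X) := by nlinarith
    calc s = s * 1 := by ring
      _ ≤ s * ((1 - 4 / 3 * dl X) * (1 + 2 * dl X)) := mul_le_mul_of_nonneg_left e1 hs0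
      _ = (s * (1 - 4 / 3 * dl X)) * (1 + 2 * dl X) := by ring
      _ ≤ ga (desc X l) * (1 + 2 * dl X) := mul_le_mul_of_nonneg_right h4 (by positivity)
  unfold em
  simp only
  push_cast
  calc (k : ℝ) * (pt l).1 * al X + k * (pt l).2 * be X = k * s := by rw [hs]; ring
    _ ≤ k * (ga (desc X l) * (1 + 2 * dl X)) := mul_le_mul_of_nonneg_left h5 hk0.le
    _ = (k * ga (desc X l)) * (1 + 2 * dl X) := by ring
    _ ≤ t * (1 + 2 * dl X) := mul_le_mul_of_nonneg_right hz (by positivity)

lemma SS_finite {X : Nd} (h : Valid X) (hd : dl X ≤ 1 / 4) (t : ℝ) : (SS X t).Finite := by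
  apply Set.Finite.of_finite_image _ (em_injOn X t)
  apply Set.Finite.subset _ (em_image_subset h hd t)
  apply tri_finite
  · have := al_lower h; linarith
  · have := be_lower h; linarith

lemma tri_le_cnt {X : Nd} (h : Valid X) (hd : dl X ≤ 1 / 4) (t : ℝ) : tri (al X) (be X) t ≤ cnt X t := by
  unfold tri cnt
  have hsub : {z : ℕ × ℕ | 0 < z.1 ∧ 0 < z.2 ∧ z.1 * al X + z.2 * be X ≤ t} ⊆ em '' (SS X t) := by
    rintro ⟨i, j⟩ ⟨hi, hj, hz⟩
    obtain ⟨l, k, hk, he⟩ := em_surj (i + j) i j (le_refl _) hi hj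
    refine ⟨(l, k), ⟨hk, ?_⟩, he⟩
    have h1 := ga_upper h l
    have hk0 : (0 : ℝ) ≤ k := by positivity
    unfold em at he
    have e1 : k * (pt l).1 = i := (Prod.mk.inj he).1
    have e2 : k * (pt l).2 = j := (Prod.mk.inj he).2
    simp only at hz ⊢
    rw [← e1, ← e2] at hz
    push_cast at hz
    calc (k : ℝ) * ga (desc X l) ≤ k * ((pt l).1 * al X + (pt l).2 * be X) := mul_le_mul_of_nonneg_left h1 hk0
      _ = k * (pt l).1 * al X + k * (pt l).2 * be X := by ring
      _ ≤ t := hz
  calc _ ≤ (em '' (SS X t)).ncard := Set.ncard_le_ncard hsub ((SS_finite h hd t).image _)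
    _ ≤ (SS X t).ncard := Set.ncard_image_le (SS_finite h hd t)

lemma cnt_le_tri {X : Nd} (h : Valid X) (hd : dl X ≤ 1 / 4) (t : ℝ) :
    cnt X t ≤ tri (al X) (be X) (t * (1 + 2 * dl X)) := by
  unfold tri cnt
  rw [← Set.InjOn.ncard_image (em_injOn X t)]
  refine Set.ncard_le_ncard (em_image_subset h hd t) ?_
  apply tri_finite
  · have := al_lower h; linarith
  · have := be_lower h; linarith

lemma cnt_mono {X : Nd} (h : Valid X) (hd : dl X ≤ 1 / 4) {s t : ℝ} (hst : s ≤ t) : cnt X s ≤ cnt X t := by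
  apply Set.ncard_le_ncard _ (SS_finite h hd t)
  intro z hz
  exact ⟨hz.1, hz.2.trans hst⟩

/-- recursion for the counting function -/
lemma cnt_rec {X : Nd} (h : Valid X) (hd : dl X ≤ 1 / 4) (t : ℝ) (ht : 0 ≤ t) :
    cnt X t = ⌊t / ga X⌋₊ + (cnt (lf X) t + cnt (rt X) t) := by
  have hg := ga_lower h
  have hg0 : 0 < ga X := by linarith
  have hdl : dl (lf X) ≤ 1 / 4 := by have := dl_lf h; have := dl_pos h; linarith
  have hdr : dl (rt X) ≤ 1 / 4 := by have := dl_rt h; have := dl_pos h; linarith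
  set A0 : Set (List Bool × ℕ) := (fun k : ℕ => (([] : List Bool), k)) '' ((Finset.Ioc 0 ⌊t / ga X⌋₊ : Finset ℕ) : Set ℕ) with hA0
  set A1 : Set (List Bool × ℕ) := (fun z : List Bool × ℕ => (true :: z.1, z.2)) '' (SS (lf X) t) with hA1
  set A2 : Set (List Bool × ℕ) := (fun z : List Bool × ℕ => (false :: z.1, z.2)) '' (SS (rt X) t) with hA2
  have hunion : SS X t = A0 ∪ (A1 ∪ A2) := by
    ext ⟨l, k⟩
    constructor
    · rintro ⟨hk, hz⟩
      cases l with
      | nil =>
        left
        refine ⟨k, ?_, rfl⟩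
        rw [Finset.mem_coe, Finset.mem_Ioc]
        refine ⟨hk, ?_⟩
        apply Nat.le_floor
        rw [le_div_iff₀ hg0]
        exact hz
      | cons b l =>
        right
        cases b
        · right; exact ⟨(l, k), ⟨hk, hz⟩, rfl⟩
        · left; exact ⟨(l, k), ⟨hk, hz⟩, rfl⟩
    · rintro (⟨k', hk', he⟩ | ⟨⟨l', k'⟩, hz, he⟩ | ⟨⟨l', k'⟩, hz, he⟩)
      · obtain ⟨e1, e2⟩ := Prod.mk.inj he
        subst e1; subst e2
        rw [Finset.mem_coe, Finset.mem_Ioc] at hk'
        refine ⟨hk'.1, ?_⟩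
        have := (Nat.le_floor_iff (by positivity)).mp hk'.2
        rw [le_div_iff₀ hg0] at this
        exact this
      · obtain ⟨e1, e2⟩ := Prod.mk.inj he
        subst e1; subst e2
        exact ⟨hz.1, hz.2⟩
      · obtain ⟨e1, e2⟩ := Prod.mk.inj he
        subst e1; subst e2
        exact ⟨hz.1, hz.2⟩
  have hf0 : A0.Finite := (Finset.finite_toSet _).image _
  have hf1 : A1.Finite := (SS_finite h.lf hdl t).image _
  have hf2 : A2.Finite := (SS_finite h.rt hdr t).image _
  have hd12 : Disjoint A1 A2 := by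
    rw [Set.disjoint_left]
    rintro z ⟨z1, _, rfl⟩ ⟨z2, _, he⟩
    have := (Prod.mk.inj he).1
    simp at this
  have hd0 : Disjoint A0 (A1 ∪ A2) := by
    rw [Set.disjoint_left]
    rintro z ⟨k, _, rfl⟩ (⟨z2, _, he⟩ | ⟨z2, _, he⟩)
    · have := (Prod.mk.inj he).1
      simp at this
    · have := (Prod.mk.inj he).1
      simp at this
  unfold cnt
  rw [hunion, Set.ncard_union_eq hd0 hf0 (hf1.union hf2), Set.ncard_union_eq hd12 hf1 hf2]
  congr 1
  · rw [hA0, Set.ncard_image_of_injective _ (fun x y h => (Prod.mk.inj h).2), Set.ncard_coe_finset]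
    simp
  · congr 1
    · rw [hA1, Set.ncard_image_of_injective]
      rintro ⟨l1, k1⟩ ⟨l2, k2⟩ h
      have h1 := (Prod.mk.inj h).1
      have h2 := (Prod.mk.inj h).2
      simp only [List.cons.injEq, true_and] at h1
      simp only at h2
      rw [h1, h2]
    · rw [hA2, Set.ncard_image_of_injective]
      rintro ⟨l1, k1⟩ ⟨l2, k2⟩ h
      have h1 := (Prod.mk.inj h).1
      have h2 := (Prod.mk.inj h).2
      simp only [List.cons.injEq, true_and] at h1
      simp only at h2
      rw [h1, h2]

def hf (X : Nd) : ℝ := 1 / (2 * al X * be X)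

def er (t : ℝ) (X : Nd) : ℝ := |(cnt X t : ℝ) + t / 2 * (1 / al X + 1 / be X) - t ^ 2 * hf X|

lemma main_rec (M : ℕ) (t : ℝ) (ht : 0 ≤ t) (n : ℕ) (X : Nd) (h : Valid X) (hd : dl X ≤ 1 / 4) :
    |(cnt X t : ℝ) + t / 2 * (1 / al X + 1 / be X) - t ^ 2 * LS M hf n X| ≤
      LS M (er t) n X + LS M (fun _ => 1) n X - 1 := by
  induction n generalizing X with
  | zero =>
    simp only [LS, er]
    linarith
  | succ n ih =>
    by_cases hs : M ≤ X.p + X.q
    · have e1 : LS M hf (n + 1) X = hf X := by unfold LS; rw [if_pos hs]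
      have e2 : LS M (er t) (n + 1) X = er t X := by unfold LS; rw [if_pos hs]
      have e3 : LS M (fun _ => (1 : ℝ)) (n + 1) X = 1 := by unfold LS; rw [if_pos hs]
      rw [e1, e2, e3]
      unfold er
      linarith
    · have e1 : LS M hf (n + 1) X = LS M hf n (lf X) + LS M hf n (rt X) := by
        conv_lhs => unfold LS
        rw [if_neg hs]
      have e2 : LS M (er t) (n + 1) X = LS M (er t) n (lf X) + LS M (er t) n (rt X) := by
        conv_lhs => unfold LS
        rw [if_neg hs]
      have e3 : LS M (fun _ => (1 : ℝ)) (n + 1) X = LS M (fun _ => 1) n (lf X) + LS M (fun _ => 1) n (rt X) := by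
        conv_lhs => unfold LS
        rw [if_neg hs]
      have hdl : dl (lf X) ≤ 1 / 4 := by have := dl_lf h; have := dl_pos h; linarith
      have hdr : dl (rt X) ≤ 1 / 4 := by have := dl_rt h; have := dl_pos h; linarith
      have i1 := ih (lf X) h.lf hdl
      have i2 := ih (rt X) h.rt hdr
      have hg := ga_lower h
      have hg0 : 0 < ga X := by linarith
      have hfl1 := Nat.floor_le (by positivity : 0 ≤ t / ga X)
      have hfl2 := Nat.lt_floor_add_one (t / ga X)
      rw [e1, e2, e3, cnt_rec h hd t ht]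
      rw [al_lf, be_lf] at i1
      rw [al_rt, be_rt] at i2
      have e4 : t / ga X = t / 2 * (1 / ga X) + t / 2 * (1 / ga X) := by ring
      rw [abs_le] at i1 i2 ⊢
      push_cast
      constructor <;> nlinarith [i1.1, i1.2, i2.1, i2.2]

lemma hf_split {X : Nd} (h : Valid X) : hf X ≤ hf (lf X) + hf (rt X) ∧ hf (lf X) + hf (rt X) ≤ hf X + 2 * dl X := by
  have h1 := al_lower h
  have h2 := be_lower h
  have h3 := ga_lower h
  have h4 := ga_le h
  have h5 := ga_ge h
  have hd := dl_pos h
  unfold hf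
  rw [al_lf, be_lf, al_rt, be_rt]
  have e : 1 / (2 * al X * ga X) + 1 / (2 * ga X * be X) = (al X + be X) / (2 * al X * be X * ga X) := by
    field_simp; ring
  have e0 : 1 / (2 * al X * be X) = ga X / (2 * al X * be X * ga X) := by
    field_simp
  rw [e]
  constructor
  · rw [e0]
    apply div_le_div_of_nonneg_right h4 (by positivity)
  · rw [e0]
    have h6 : 27 / 32 ≤ 2 * al X * be X * ga X := by
      have e1 : (3 / 4 : ℝ) * (3 / 4) ≤ al X * be X := mul_le_mul h1 h2 (by norm_num) (by linarith)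
      have e2 : (3 / 4 : ℝ) * (3 / 4) * (3 / 4) ≤ al X * be X * ga X := mul_le_mul e1 h3 (by norm_num) (by nlinarith)
      linarith
    have h7 : dl X / (2 * al X * be X * ga X) ≤ 2 * dl X := by
      rw [div_le_iff₀ (by linarith)]
      nlinarith
    have h8 : (al X + be X) / (2 * al X * be X * ga X) ≤ (ga X + dl X) / (2 * al X * be X * ga X) := by
      apply div_le_div_of_nonneg_right (by linarith) (by linarith)
    rw [add_div (ga X) (dl X)] at h8
    linarith

lemma hf_bounds (M n : ℕ) (X : Nd) (h : Valid X) : hf X ≤ LS M hf n X ∧ LS M hf n X ≤ hf X + 4 * dl X := by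
  induction n generalizing X with
  | zero =>
    have := dl_pos h
    simp only [LS]; constructor <;> linarith
  | succ n ih =>
    have hd := dl_pos h
    unfold LS
    split_ifs with hs
    · constructor <;> linarith
    · have i1 := ih (lf X) h.lf
      have i2 := ih (rt X) h.rt
      have hsp := hf_split h
      have h3 := dl_lf h
      have h4 := dl_rt h
      constructor
      · linarith [i1.1, i2.1, hsp.1]
      · linarith [i1.2, i2.2, hsp.2]

lemma hf_cauchy (M M' : ℕ) (hM : M ≤ M') (n n' : ℕ) (hn : n ≤ n') (X : Nd) (h : Valid X) :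
    0 ≤ LS M' hf n' X - LS M hf n X ∧ LS M' hf n' X - LS M hf n X ≤ LS M (fun X => 4 * dl X) n X := by
  induction n generalizing X n' with
  | zero =>
    have := hf_bounds M' n' X h
    simp only [LS]; constructor <;> linarith [this.1, this.2]
  | succ n ih =>
    by_cases hs : M ≤ X.p + X.q
    · have e1 : LS M hf (n + 1) X = hf X := by unfold LS; rw [if_pos hs]
      have e2 : LS M (fun X => 4 * dl X) (n + 1) X = 4 * dl X := by unfold LS; rw [if_pos hs]
      rw [e1, e2]
      have := hf_bounds M' n' X h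
      constructor <;> linarith [this.1, this.2]
    · have hs' : ¬ M' ≤ X.p + X.q := by omega
      obtain ⟨m', rfl⟩ : ∃ m', n' = m' + 1 := ⟨n' - 1, by omega⟩
      have e1 : LS M hf (n + 1) X = LS M hf n (lf X) + LS M hf n (rt X) := by
        conv_lhs => unfold LS
        rw [if_neg hs]
      have e1' : LS M' hf (m' + 1) X = LS M' hf m' (lf X) + LS M' hf m' (rt X) := by
        conv_lhs => unfold LS
        rw [if_neg hs']
      have e2 : LS M (fun X => 4 * dl X) (n + 1) X = LS M (fun X => 4 * dl X) n (lf X) + LS M (fun X => 4 * dl X) n (rt X) := by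
        conv_lhs => unfold LS
        rw [if_neg hs]
      rw [e1, e1', e2]
      have i1 := ih m' (by omega) (lf X) h.lf
      have i2 := ih m' (by omega) (rt X) h.rt
      constructor <;> linarith [i1.1, i1.2, i2.1, i2.2]

lemma inn_root (M : ℕ) (hM : 1 ≤ M) : Inn M M root := by
  refine ⟨valid_root, ?_, ?_, ?_⟩ <;> simp [root] <;> omega

/-- size of the tail of the area -/
lemma area_tail (M M' : ℕ) (hM1 : 1 ≤ M) (hM : M ≤ M') :
    |LS M' hf M' root - LS M hf M root| ≤ 64 * (M : ℝ) ^ 2 / 4 ^ M := by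
  have h1 := hf_cauchy M M' hM M M' hM root valid_root
  rw [abs_of_nonneg h1.1]
  refine h1.2.trans ?_
  have h2 := LS_le_desc M (fun X => 4 * dl X) (fun _ => 64 / 4 ^ M * 1) M root (inn_root M hM1) (by
    intro l hl
    have h3 := dl_size hl.v
    have h4 : (16 : ℝ) / 4 ^ ((desc root l).p + (desc root l).q) ≤ 16 / 4 ^ M := by
      apply div_le_div_of_nonneg_left (by norm_num) (by positivity)
      exact pow_le_pow_right₀ (by norm_num) hl.s
    have h5 : (64 : ℝ) / 4 ^ M = 4 * (16 / 4 ^ M) := by ring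
    rw [mul_one, h5]
    linarith)
  rw [LS_smul M (64 / 4 ^ M) (fun _ => 1)] at h2
  refine h2.trans ?_
  have h3 := LS_one_le M M root (inn_root M hM1)
  have h4 : meas root = 1 := by unfold meas root; norm_num
  rw [h4, mul_one] at h3
  calc 64 / 4 ^ M * LS M (fun _ => 1) M root ≤ 64 / 4 ^ M * (M : ℝ) ^ 2 := mul_le_mul_of_nonneg_left h3 (by positivity)
    _ = _ := by ring

/-- the area constant -/
lemma area_exists : ∃ A : ℝ, 0 ≤ A ∧ ∀ M : ℕ, 1 ≤ M → |A - LS M hf M root| ≤ 64 * (M : ℝ) ^ 2 / 4 ^ M := by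
  have hlim0 : Filter.Tendsto (fun M : ℕ => 64 * (M : ℝ) ^ 2 / 4 ^ M) Filter.atTop (nhds 0) := by
    have h1 := tendsto_pow_const_mul_const_pow_of_abs_lt_one 2 (r := (1 / 4 : ℝ)) (by rw [abs_of_pos] <;> norm_num)
    have h2 := h1.const_mul 64
    rw [mul_zero] at h2
    refine h2.congr ?_
    intro M
    rw [one_div, inv_pow]
    field_simp
  have hcau : CauchySeq (fun M : ℕ => LS M hf M root) := by
    rw [Metric.cauchySeq_iff']
    intro ε hε
    obtain ⟨N, hN⟩ := (Metric.tendsto_atTop.mp hlim0) ε hε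
    refine ⟨max N 1, fun n hn => ?_⟩
    rw [Real.dist_eq]
    refine lt_of_le_of_lt (area_tail (max N 1) n (le_max_right _ _) hn) ?_
    have h := hN (max N 1) (le_max_left _ _)
    rw [Real.dist_eq, sub_zero] at h
    exact lt_of_le_of_lt (le_abs_self _) h
  obtain ⟨A, hA⟩ := cauchySeq_tendsto_of_complete hcau
  refine ⟨A, ?_, ?_⟩
  · apply ge_of_tendsto' hA
    intro M
    refine le_trans ?_ (hf_bounds M M root valid_root).1
    have h1 := al_lower valid_root
    have h2 := be_lower valid_root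
    unfold hf; positivity
  · intro M hM
    have h1 : Filter.Tendsto (fun M' => |LS M' hf M' root - LS M hf M root|) Filter.atTop (nhds |A - LS M hf M root|) :=
      (hA.sub_const _).abs
    apply le_of_tendsto h1
    filter_upwards [Filter.eventually_ge_atTop M] with M' hM'
    exact area_tail M M' hM hM'

end

end Pool.Agent.H409R2.MZ.Mk
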