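import Mathlib
import Pool.Agent.H409R2.MZ.Bound

set_option autoImplicit false

namespace Pool.Agent.H409R2.MZ.Mk

open Pool.Agent.H409R2.MZ.Axer
open Pool.Agent.H409R2.MZ.PNT

noncomputable section

/-- number of nodes with `g c ≤ T` -/
def PP (T : ℝ) : ℕ := {l : List Bool | ga (desc root l) ≤ T}.ncard

lemma droot : dl root ≤ 1 / 4 := dl_desc []

lemma FF_finite (T : ℝ) : {l : List Bool | ga (desc root l) ≤ T}.Finite := by
  have h := SS_finite valid_root droot T
  have h2 : {l : List Bool | ga (desc root l) ≤ T} ⊆ Prod.fst '' (SS root T) := by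
    intro l hl
    refine ⟨(l, 1), ⟨by simp, ?_⟩, rfl⟩
    simpa using hl
  exact (h.image _).subset h2

lemma ga_one {X : Nd} (h : Valid X) : 1 ≤ ga X := by
  have h1 := h.mt.c_ge
  have h2 := h.mt.ab_pos
  have h3 := lam_lower X.c (by linarith)
  unfold ga g
  rw [Real.le_log_iff_exp_le (by linarith)]
  have := Real.exp_one_lt_d9
  linarith

lemma cnt_eq_sum (T t : ℝ) (htT : t ≤ T) (ht : 0 ≤ t) :
    cnt root t = ∑ l ∈ (FF_finite T).toFinset, ⌊t / ga (desc root l)⌋₊ := by
  classical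
  have hfin := SS_finite valid_root droot t
  unfold cnt
  rw [Set.ncard_eq_toFinset_card _ hfin]
  rw [Finset.card_eq_sum_card_fiberwise (f := Prod.fst) (t := (FF_finite T).toFinset)]
  · apply Finset.sum_congr rfl
    intro l hl
    have hg : 0 < ga (desc root l) := by have := ga_one (valid_root.desc l); linarith
    have h1 : (hfin.toFinset.filter (fun z => z.1 = l)) = (Finset.Ioc 0 ⌊t / ga (desc root l)⌋₊).image (fun k => (l, k)) := by
      ext ⟨l', k⟩
      simp only [Finset.mem_filter, Set.Finite.mem_toFinset, SS, Set.mem_setOf_eq, Finset.mem_image, Finset.mem_Ioc, Prod.mk.injEq]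
      constructor
      · rintro ⟨⟨hk, hk2⟩, rfl⟩
        refine ⟨k, ⟨hk, ?_⟩, rfl, rfl⟩
        rw [Nat.le_floor_iff (by positivity), le_div_iff₀ hg]
        exact hk2
      · rintro ⟨k', ⟨hk1, hk2⟩, rfl, rfl⟩
        refine ⟨⟨hk1, ?_⟩, rfl⟩
        rw [Nat.le_floor_iff (by positivity), le_div_iff₀ hg] at hk2
        exact hk2
    rw [h1, Finset.card_image_of_injective _ (fun a b h => by simpa using h)]
    simp
  · intro z hz
    have hz' : z ∈ SS root t := by simpa using hz
    obtain ⟨hz1, hz2⟩ := hz'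
    have hg := ga_one (valid_root.desc z.1)
    have hz3 : (1 : ℝ) ≤ z.2 := by exact_mod_cast hz1
    have hz4 : ga (desc root z.1) ≤ T := by
      have := mul_le_mul_of_nonneg_right hz3 (by linarith : 0 ≤ ga (desc root z.1))
      linarith
    simpa using hz4

lemma mobius_id (T : ℝ) (hT : 1 ≤ T) :
    ∑ d ∈ Finset.Ioc 0 ⌊T⌋₊, mu d * (cnt root (T / d) : ℝ) = PP T := by
  have h1 : ∀ d ∈ Finset.Ioc 0 ⌊T⌋₊, mu d * (cnt root (T / d) : ℝ) =
      ∑ l ∈ (FF_finite T).toFinset, mu d * (⌊(T / ga (desc root l)) / d⌋₊ : ℝ) := by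
    intro d hd
    rw [Finset.mem_Ioc] at hd
    have hd0 : (1 : ℝ) ≤ d := by exact_mod_cast hd.1
    rw [cnt_eq_sum T (T / d) (div_le_self (by linarith) hd0) (by positivity)]
    push_cast
    rw [Finset.mul_sum]
    apply Finset.sum_congr rfl
    intro l _
    rw [div_right_comm]
  rw [Finset.sum_congr rfl h1, Finset.sum_comm]
  have h2 : ∀ l ∈ (FF_finite T).toFinset,
      ∑ d ∈ Finset.Ioc 0 ⌊T⌋₊, mu d * (⌊(T / ga (desc root l)) / d⌋₊ : ℝ) = 1 := by
    intro l hl
    have hl' : ga (desc root l) ≤ T := by simpa using hl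
    have hg := ga_one (valid_root.desc l)
    have hT1 : 1 ≤ T / ga (desc root l) := by rw [le_div_iff₀ (by linarith)]; linarith
    rw [← sum_mu_floor _ hT1]
    symm
    apply Finset.sum_subset
    · intro d hd
      rw [Finset.mem_Ioc] at hd ⊢
      refine ⟨hd.1, hd.2.trans (Nat.floor_le_floor ?_)⟩
      exact div_le_self (by linarith) hg
    · intro d hd hd2
      rw [Finset.mem_Ioc] at hd
      have hd3 : ⌊T / ga (desc root l)⌋₊ < d := by
        by_contra hcon
        push Not at hcon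
        exact hd2 (Finset.mem_Ioc.mpr ⟨hd.1, hcon⟩)
      have hd4 : T / ga (desc root l) < d := (Nat.floor_lt (by positivity)).mp hd3
      have hd0 : (0 : ℝ) < d := by exact_mod_cast hd.1
      have h3 : T / ga (desc root l) / d < 1 := by rw [div_lt_one hd0]; exact hd4
      rw [Nat.floor_eq_zero.mpr h3]; simp
  rw [Finset.sum_congr rfl h2]
  simp only [Finset.sum_const, nsmul_eq_mul, mul_one]
  unfold PP
  rw [Set.ncard_eq_toFinset_card _ (FF_finite T)]

theorem PP_asymp : ∃ c : ℝ, ∀ ε : ℝ, 0 < ε → ∃ T0 : ℝ, 1 ≤ T0 ∧ ∀ T : ℝ, T0 ≤ T →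
    |(PP T : ℝ) - c * T ^ 2| ≤ ε * T := by
  obtain ⟨A, hA0, hA⟩ := area_exists
  obtain ⟨C, t0, hC, hR⟩ := R_bound A hA
  have hal := al_lower valid_root
  have hbe := be_lower valid_root
  have hal0 : 0 < al root := by linarith
  have hbe0 : 0 < be root := by linarith
  have htail : TailSmall (fun t => (cnt root t : ℝ) + (1 / 2 * (1 / al root + 1 / be root)) * t - A * t ^ 2) := by
    apply tailSmall_of_bound _ C t0 hC
    intro t ht
    have h := hR t ht
    have e : (cnt root t : ℝ) + (1 / 2 * (1 / al root + 1 / be root)) * t - A * t ^ 2 =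
        (cnt root t : ℝ) + t / 2 * (1 / al root + 1 / be root) - A * t ^ 2 := by ring
    rw [e]; exact h
  obtain ⟨c, hc⟩ := transfer (fun t => (cnt root t : ℝ)) A (1 / 2 * (1 / al root + 1 / be root)) hA0 (by positivity)
    (fun x y _ hxy => by exact_mod_cast cnt_mono valid_root droot hxy) (fun x _ => by positivity) htail
  refine ⟨c, fun ε hε => ?_⟩
  obtain ⟨T0, hT0, h⟩ := hc ε hε
  refine ⟨T0, hT0, fun T hT => ?_⟩
  have h2 := h T hT
  rwa [mobius_id T (hT0.trans hT)] at h2

end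

end Pool.Agent.H409R2.MZ.Mk
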