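import Mathlib
import Pool.Agent.H409R2.MZ.Final

set_option autoImplicit false

namespace Pool.Agent.H409R2.MZ.Mk

noncomputable section

/-- one step down the tree -/
def step (X : Nd) : Bool → Nd
  | true => lf X
  | false => rt X

/-- nodes indexed by reversed paths -/
def nd : List Bool → Nd
  | [] => root
  | (b :: l) => step (nd l) b

lemma desc_snoc (X : Nd) (l : List Bool) (b : Bool) : desc X (l ++ [b]) = step (desc X l) b := by
  induction l generalizing X with
  | nil => cases b <;> rfl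
  | cons c l ih => cases c <;> simp only [List.cons_append, desc] <;> exact ih _

lemma nd_eq (l : List Bool) : nd l = desc root l.reverse := by
  induction l with
  | nil => rfl
  | cons b l ih => rw [List.reverse_cons, desc_snoc, ← ih]; rfl

/-- integral facts on a node -/
structure Zv (X : Nd) : Prop where
  a1 : 1 ≤ X.a
  b1 : 1 ≤ X.b
  eq : X.a ^ 2 + X.b ^ 2 + X.c ^ 2 = 3 * X.a * X.b * X.c
  ne : X.a ≠ X.b
  ac : X.a < X.c
  bc : X.b < X.c
  c5 : 5 ≤ X.c

lemma zv_root : Zv root := by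
  refine ⟨?_, ?_, ?_, ?_, ?_, ?_, ?_⟩ <;> simp [root]

lemma Zv.lf {X : Nd} (h : Zv X) : Zv (lf X) ∧ X.c < (lf X).c := by
  obtain ⟨a1, b1, eq, ne, ac, bc, c5⟩ := h
  have h1 : X.c ≤ X.a * X.c := le_mul_of_one_le_left (by omega) a1
  have h2 : 3 * X.a * X.c = 3 * (X.a * X.c) := by ring
  refine ⟨⟨a1, by simp only [Mk.lf]; omega, ?_, ?_, ?_, ?_, ?_⟩, ?_⟩
  · simp only [Mk.lf]; linear_combination eq
  · simp only [Mk.lf]; omega
  · simp only [Mk.lf]; omega
  · simp only [Mk.lf]; omega
  · simp only [Mk.lf]; omega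
  · simp only [Mk.lf]; omega

lemma Zv.rt {X : Nd} (h : Zv X) : Zv (rt X) ∧ X.c < (rt X).c := by
  obtain ⟨a1, b1, eq, ne, ac, bc, c5⟩ := h
  have h1 : X.c ≤ X.b * X.c := le_mul_of_one_le_left (by omega) b1
  have h2 : 3 * X.b * X.c = 3 * (X.b * X.c) := by ring
  refine ⟨⟨by simp only [Mk.rt]; omega, b1, ?_, ?_, ?_, ?_, ?_⟩, ?_⟩
  · simp only [Mk.rt]; linear_combination eq
  · simp only [Mk.rt]; omega
  · simp only [Mk.rt]; omega
  · simp only [Mk.rt]; omega
  · simp only [Mk.rt]; omega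
  · simp only [Mk.rt]; omega

lemma Zv.step {X : Nd} (h : Zv X) (b : Bool) : Zv (step X b) ∧ X.c < (step X b).c := by
  cases b
  · exact h.rt
  · exact h.lf

lemma zv (l : List Bool) : Zv (nd l) := by
  induction l with
  | nil => exact zv_root
  | cons b l ih => exact (ih.step b).1

/-- the sorted triple of a node -/
def Ph (X : Nd) : ℤ × ℤ × ℤ := (min X.a X.b, max X.a X.b, X.c)

lemma Ph_lf {X : Nd} (h : Zv X) : Ph (lf X) = (X.a, X.c, 3 * X.a * X.c - X.b) := by
  have := h.ac
  unfold Ph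
  simp only [Mk.lf]
  rw [min_eq_left this.le, max_eq_right this.le]

lemma Ph_rt {X : Nd} (h : Zv X) : Ph (rt X) = (X.b, X.c, 3 * X.b * X.c - X.a) := by
  have := h.bc
  unfold Ph
  simp only [Mk.rt]
  rw [min_eq_right this.le, max_eq_left this.le]

lemma Ph_step_inj {X Y : Nd} (hX : Zv X) (hY : Zv Y) (b b' : Bool) (h : Ph (step X b) = Ph (step Y b')) :
    Ph X = Ph Y := by
  cases b <;> cases b' <;> simp only [step] at h
  · rw [Ph_rt hX, Ph_rt hY] at h
    simp only [Prod.mk.injEq] at h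
    obtain ⟨h1, h2, h3⟩ := h
    rw [h1, h2] at h3
    unfold Ph
    rw [h1, h2, show X.a = Y.a by linarith]
  · rw [Ph_rt hX, Ph_lf hY] at h
    simp only [Prod.mk.injEq] at h
    obtain ⟨h1, h2, h3⟩ := h
    rw [h1, h2] at h3
    unfold Ph
    rw [h1, h2, show X.a = Y.b by linarith, min_comm, max_comm]
  · rw [Ph_lf hX, Ph_rt hY] at h
    simp only [Prod.mk.injEq] at h
    obtain ⟨h1, h2, h3⟩ := h
    rw [h1, h2] at h3
    unfold Ph
    rw [h1, h2, show X.b = Y.a by linarith, min_comm, max_comm]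
  · rw [Ph_lf hX, Ph_lf hY] at h
    simp only [Prod.mk.injEq] at h
    obtain ⟨h1, h2, h3⟩ := h
    rw [h1, h2] at h3
    unfold Ph
    rw [h1, h2, show X.b = Y.b by linarith]

lemma Ph_inj (l l' : List Bool) (h : Ph (nd l) = Ph (nd l')) : l = l' := by
  induction l generalizing l' with
  | nil =>
    cases l' with
    | nil => rfl
    | cons b l' =>
      exfalso
      have h1 := ((zv l').step b).2
      have h2 := (zv l').c5
      have h3 : (nd []).c = (nd (b :: l')).c := congrArg (fun z => z.2.2) h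
      have h4 : (nd []).c = 5 := rfl
      have h5 : (nd (b :: l')).c = (step (nd l') b).c := rfl
      omega
  | cons b l ih =>
    cases l' with
    | nil =>
      exfalso
      have h1 := ((zv l).step b).2
      have h2 := (zv l).c5
      have h3 : (nd (b :: l)).c = (nd []).c := congrArg (fun z => z.2.2) h
      have h4 : (nd []).c = 5 := rfl
      have h5 : (nd (b :: l)).c = (step (nd l) b).c := rfl
      omega
    | cons b' l' =>
      have h1 : Ph (nd l) = Ph (nd l') := Ph_step_inj (zv l) (zv l') b b' h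
      have h2 := ih l' h1
      subst h2
      have hz := zv l
      have h3 : Ph (step (nd l) b) = Ph (step (nd l) b') := h
      cases b <;> cases b'
      · rfl
      · exfalso
        simp only [step] at h3
        rw [Ph_rt hz, Ph_lf hz] at h3
        simp only [Prod.mk.injEq] at h3
        exact hz.ne h3.1.symm
      · exfalso
        simp only [step] at h3
        rw [Ph_rt hz, Ph_lf hz] at h3
        simp only [Prod.mk.injEq] at h3
        exact hz.ne h3.1
      · rfl

lemma small_check : ∀ a : Fin 5, ∀ b : Fin 5, ∀ c : Fin 49, 1 ≤ a.val → a.val ≤ b.val → b.val ≤ c.val →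
    a.val ^ 2 + b.val ^ 2 + c.val ^ 2 = 3 * a.val * b.val * c.val → 
    (a.val = 1 ∧ b.val = 1 ∧ c.val = 1) ∨ (a.val = 1 ∧ b.val = 1 ∧ c.val = 2) ∨ (a.val = 1 ∧ b.val = 2 ∧ c.val = 5) := by
  decide +kernel

lemma small_nat (a b c : ℕ) (ha : 1 ≤ a) (hab : a ≤ b) (hbc : b ≤ c) (h : a ^ 2 + b ^ 2 + c ^ 2 = 3 * a * b * c)
    (hb : b < 5) : (a = 1 ∧ b = 1 ∧ c = 1) ∨ (a = 1 ∧ b = 1 ∧ c = 2) ∨ (a = 1 ∧ b = 2 ∧ c = 5) := by
  have hc : c < 49 := by
    by_contra hcon
    push Not at hcon
    have h1 : 3 * a * b ≤ 3 * 4 * 4 := by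
      have ha4 : a ≤ 4 := by omega
      have hb4 : b ≤ 4 := by omega
      exact Nat.mul_le_mul (Nat.mul_le_mul_left 3 ha4) hb4
    have h2 : 3 * a * b * c ≤ 48 * c := Nat.mul_le_mul_right c h1
    have h3 : 49 * c ≤ c ^ 2 := by rw [sq]; exact Nat.mul_le_mul_right c hcon
    have : 0 < a ^ 2 := by positivity
    omega
  exact small_check ⟨a, by omega⟩ ⟨b, hb⟩ ⟨c, hc⟩ ha hab hbc h

lemma small_int (a b c : ℤ) (ha : 1 ≤ a) (hab : a ≤ b) (hbc : b ≤ c) (h : a ^ 2 + b ^ 2 + c ^ 2 = 3 * a * b * c)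
    (hb : b < 5) : (a = 1 ∧ b = 1 ∧ c = 1) ∨ (a = 1 ∧ b = 1 ∧ c = 2) ∨ (a = 1 ∧ b = 2 ∧ c = 5) := by
  lift a to ℕ using by omega
  lift b to ℕ using by omega
  lift c to ℕ using by omega
  have h' : a ^ 2 + b ^ 2 + c ^ 2 = 3 * a * b * c := by exact_mod_cast h
  have := small_nat a b c (by omega) (by omega) (by omega) h' (by omega)
  omega

lemma Ph_surj (N : ℕ) : ∀ a b c : ℤ, c ≤ N → 1 ≤ a → a ≤ b → b ≤ c → a ^ 2 + b ^ 2 + c ^ 2 = 3 * a * b * c →
    5 ≤ c → ∃ l, Ph (nd l) = (a, b, c) := by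
  induction N with
  | zero => intro a b c h1 _ _ _ _ h2; exfalso; push_cast at h1; omega
  | succ N ih =>
    intro a b c hcN ha hab hbc heq hc5
    by_cases hb : b < 5
    · have := small_int a b c ha hab hbc heq hb
      refine ⟨[], ?_⟩
      have h1 : a = 1 ∧ b = 2 ∧ c = 5 := by omega
      obtain ⟨rfl, rfl, rfl⟩ := h1
      rfl
    · push Not at hb
      set c' := 3 * a * b - c with hc'
      have hprod : c * c' = a ^ 2 + b ^ 2 := by rw [hc']; linear_combination (-1 : ℤ) * heq
      have hc'pos : 0 < c' := by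
        by_contra hcon
        push Not at hcon
        have : c * c' ≤ 0 := mul_nonpos_of_nonneg_of_nonpos (by omega) hcon
        have h2 : 0 < a ^ 2 := by positivity
        have h3 : 0 < b ^ 2 := by positivity
        omega
      have hkey : (b - c) * (b - c') < 0 := by
        have e : (b - c) * (b - c') = 2 * b ^ 2 + a ^ 2 - 3 * a * b ^ 2 := by
          have : (b - c) * (b - c') = b ^ 2 - b * (c + c') + c * c' := by ring
          rw [this, hprod, hc']; ring
        rw [e]
        rcases eq_or_lt_of_le ha with h1 | h1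
        · rw [← h1]; nlinarith
        · have h2 : a ^ 2 ≤ b ^ 2 := by nlinarith
          have h3 : 2 * b ^ 2 ≤ a * b ^ 2 := mul_le_mul_of_nonneg_right (by omega) (sq_nonneg b)
          have h4 : 3 * a * b ^ 2 = 3 * (a * b ^ 2) := by ring
          have h5 : 0 < b ^ 2 := by positivity
          omega
      have hbc' : b < c := by
        rcases eq_or_lt_of_le hbc with h1 | h1
        · exfalso; rw [h1] at hkey; simp at hkey
        · exact h1
      have hc'b : c' < b := by
        by_contra hcon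
        push Not at hcon
        have : 0 ≤ (b - c) * (b - c') := mul_nonneg_of_nonpos_of_nonpos (by omega) (by omega)
        omega
      have heq' : a ^ 2 + b ^ 2 + c' ^ 2 = 3 * a * b * c' := by
        have : c' ^ 2 = 3 * a * b * c' - c * c' := by rw [hc']; ring
        rw [this, hprod]; ring
      rcases le_total a c' with hac | hac
      · obtain ⟨l, hl⟩ := ih a c' b (by omega) ha hac hc'b.le (by linarith) hb
        have hz := zv l
        have e1 : min (nd l).a (nd l).b = a := congrArg (fun z => z.1) hl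
        have e2 : max (nd l).a (nd l).b = c' := congrArg (fun z => z.2.1) hl
        have e3 : (nd l).c = b := congrArg (fun z => z.2.2) hl
        rcases le_total (nd l).a (nd l).b with h | h
        · rw [min_eq_left h] at e1
          rw [max_eq_right h] at e2
          refine ⟨true :: l, ?_⟩
          show Ph (lf (nd l)) = _
          rw [Ph_lf hz, e1, e2, e3, hc']
          simp
        · rw [min_eq_right h] at e1
          rw [max_eq_left h] at e2
          refine ⟨false :: l, ?_⟩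
          show Ph (rt (nd l)) = _
          rw [Ph_rt hz, e1, e2, e3, hc']
          simp
      · obtain ⟨l, hl⟩ := ih c' a b (by omega) (by omega) hac hab (by linarith) hb
        have hz := zv l
        have e1 : min (nd l).a (nd l).b = c' := congrArg (fun z => z.1) hl
        have e2 : max (nd l).a (nd l).b = a := congrArg (fun z => z.2.1) hl
        have e3 : (nd l).c = b := congrArg (fun z => z.2.2) hl
        rcases le_total (nd l).a (nd l).b with h | h
        · rw [min_eq_left h] at e1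
          rw [max_eq_right h] at e2
          refine ⟨false :: l, ?_⟩
          show Ph (rt (nd l)) = _
          rw [Ph_rt hz, e1, e2, e3, hc']
          simp
        · rw [min_eq_right h] at e1
          rw [max_eq_left h] at e2
          refine ⟨true :: l, ?_⟩
          show Ph (lf (nd l)) = _
          rw [Ph_lf hz, e1, e2, e3, hc']
          simp

lemma Ph_pos (l : List Bool) : 1 ≤ (Ph (nd l)).1 ∧ (Ph (nd l)).1 ≤ (Ph (nd l)).2.1 ∧ (Ph (nd l)).2.1 ≤ (Ph (nd l)).2.2 ∧
    5 ≤ (Ph (nd l)).2.2 ∧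
    (Ph (nd l)).1 ^ 2 + (Ph (nd l)).2.1 ^ 2 + (Ph (nd l)).2.2 ^ 2 = 3 * (Ph (nd l)).1 * (Ph (nd l)).2.1 * (Ph (nd l)).2.2 := by
  obtain ⟨a1, b1, eq, ne, ac, bc, c5⟩ := zv l
  unfold Ph
  simp only
  rcases le_total (nd l).a (nd l).b with h | h
  · rw [min_eq_left h, max_eq_right h]
    exact ⟨a1, h, bc.le, c5, eq⟩
  · rw [min_eq_right h, max_eq_left h]
    exact ⟨b1, h, ac.le, c5, by linarith⟩

/-- natural-number version of the sorted triple -/
def Pn (l : List Bool) : ℕ × ℕ × ℕ := ((Ph (nd l)).1.toNat, (Ph (nd l)).2.1.toNat, (Ph (nd l)).2.2.toNat)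

lemma Pn_inj : Function.Injective Pn := by
  intro l l' h
  obtain ⟨h1, h2, h3, h4, h5⟩ := Ph_pos l
  obtain ⟨h1', h2', h3', h4', h5'⟩ := Ph_pos l'
  apply Ph_inj
  unfold Pn at h
  simp only [Prod.mk.injEq] at h
  obtain ⟨e1, e2, e3⟩ := h
  apply Prod.ext
  · omega
  · apply Prod.ext
    · omega
    · omega

lemma g_le_iff (m n : ℝ) (hm : 1 ≤ m) (hn : 1 ≤ n) : g m ≤ g n ↔ m ≤ n := by
  constructor
  · intro h
    by_contra hcon
    push Not at hcon
    have := g_lt_g n m hn hcon
    linarith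
  · intro h
    exact g_le_g m n hm h

lemma GG_image (x : ℝ) (hx : 1 ≤ x) :
    {l : List Bool | ga (desc root l) ≤ g x} = List.reverse '' {l : List Bool | ((nd l).c : ℝ) ≤ x} := by
  ext l
  simp only [Set.mem_image, Set.mem_setOf_eq]
  constructor
  · intro h
    refine ⟨l.reverse, ?_, List.reverse_reverse l⟩
    rw [nd_eq, List.reverse_reverse]
    have hc : (1 : ℝ) ≤ (desc root l).c := (valid_root.desc l).mt.c_one
    exact (g_le_iff _ _ hc hx).mp h
  · rintro ⟨m, hm, rfl⟩
    rw [← nd_eq]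
    have hc : (1 : ℝ) ≤ (nd m).c := by rw [nd_eq]; exact (valid_root.desc _).mt.c_one
    exact (g_le_iff _ _ hc hx).mpr hm

lemma GG_finite (x : ℝ) (hx : 1 ≤ x) : {l : List Bool | ((nd l).c : ℝ) ≤ x}.Finite := by
  have h := FF_finite (g x)
  rw [GG_image x hx] at h
  exact Set.Finite.of_finite_image h (List.reverse_injective.injOn)

lemma GG_card (x : ℝ) (hx : 1 ≤ x) : (GG_finite x hx).toFinset.card = PP (g x) := by
  unfold PP
  rw [GG_image x hx, Set.ncard_image_of_injective _ List.reverse_injective,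
    Set.ncard_eq_toFinset_card _ (GG_finite x hx)]

/-- the count of Markov triples in terms of the tree -/
theorem count_eq (x : ℝ) (hx : 2 ≤ x) :
    ((Finset.Icc 1 ⌊x⌋₊ ×ˢ (Finset.Icc 1 ⌊x⌋₊ ×ˢ Finset.Icc 1 ⌊x⌋₊)).filter
      (fun t : ℕ × ℕ × ℕ => t.1 ≤ t.2.1 ∧ t.2.1 ≤ t.2.2 ∧
        t.1 ^ 2 + t.2.1 ^ 2 + t.2.2 ^ 2 = 3 * t.1 * t.2.1 * t.2.2)).card = 2 + PP (g x) := by
  classical
  have hx1 : 1 ≤ x := by linarith
  have hx2 : 2 ≤ ⌊x⌋₊ := Nat.le_floor (by exact_mod_cast hx)
  have hset : (Finset.Icc 1 ⌊x⌋₊ ×ˢ (Finset.Icc 1 ⌊x⌋₊ ×ˢ Finset.Icc 1 ⌊x⌋₊)).filter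
      (fun t : ℕ × ℕ × ℕ => t.1 ≤ t.2.1 ∧ t.2.1 ≤ t.2.2 ∧
        t.1 ^ 2 + t.2.1 ^ 2 + t.2.2 ^ 2 = 3 * t.1 * t.2.1 * t.2.2) =
      ({(1, 1, 1), (1, 1, 2)} : Finset (ℕ × ℕ × ℕ)) ∪ (GG_finite x hx1).toFinset.image Pn := by
    ext ⟨a, b, c⟩
    simp only [Finset.mem_filter, Finset.mem_product, Finset.mem_Icc, Finset.mem_union, Finset.mem_insert,
      Finset.mem_singleton, Finset.mem_image, Set.Finite.mem_toFinset, Set.mem_setOf_eq, Prod.mk.injEq]
    constructor
    · rintro ⟨⟨⟨ha1, ha2⟩, ⟨hb1, hb2⟩, hc1, hc2⟩, hab, hbc, heq⟩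
      by_cases hc5 : 5 ≤ c
      · right
        obtain ⟨l, hl⟩ := Ph_surj c (a : ℤ) b c le_rfl (by exact_mod_cast ha1) (by exact_mod_cast hab)
          (by exact_mod_cast hbc) (by exact_mod_cast heq) (by exact_mod_cast hc5)
        refine ⟨l, ?_, ?_⟩
        · have h3 : (nd l).c = c := congrArg (fun z => z.2.2) hl
          rw [h3]
          push_cast
          exact (Nat.cast_le.mpr hc2).trans (Nat.floor_le (by linarith))
        · unfold Pn
          rw [hl]
          simp
      · left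
        have := small_nat a b c ha1 hab hbc heq (by omega)
        omega
    · rintro (h | ⟨l, hl, hP⟩)
      · rcases h with ⟨rfl, rfl, rfl⟩ | ⟨rfl, rfl, rfl⟩
        · refine ⟨⟨⟨le_rfl, by omega⟩, ⟨le_rfl, by omega⟩, le_rfl, by omega⟩, le_rfl, le_rfl, by norm_num⟩
        · refine ⟨⟨⟨le_rfl, by omega⟩, ⟨le_rfl, by omega⟩, by norm_num, by omega⟩, le_rfl, by norm_num, by norm_num⟩
      · obtain ⟨h1, h2, h3, h4, h5⟩ := Ph_pos l
        unfold Pn at hP
        simp only [Prod.mk.injEq] at hP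
        obtain ⟨e1, e2, e3⟩ := hP
        have f1 : (Ph (nd l)).1 = a := by omega
        have f2 : (Ph (nd l)).2.1 = b := by omega
        have f3 : (Ph (nd l)).2.2 = c := by omega
        rw [f1, f2, f3] at h5
        rw [f1] at h1
        rw [f1, f2] at h2
        rw [f2, f3] at h3
        have hcc : (nd l).c = c := f3
        rw [hcc] at hl
        have hcx : c ≤ ⌊x⌋₊ := Nat.le_floor (by exact_mod_cast hl)
        have g1 : 1 ≤ a := by omega
        have g2 : a ≤ b := by omega
        have g3 : b ≤ c := by omega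
        refine ⟨⟨⟨g1, by omega⟩, ⟨by omega, by omega⟩, by omega, hcx⟩, g2, g3, ?_⟩
        exact_mod_cast h5
  rw [hset, Finset.card_union_of_disjoint, Finset.card_image_of_injective _ Pn_inj, GG_card x hx1]
  · rfl
  · rw [Finset.disjoint_left]
    intro z hz hz2
    rw [Finset.mem_image] at hz2
    obtain ⟨l, _, hl⟩ := hz2
    have h4 := (Ph_pos l).2.2.2.1
    have h6 : z.2.2 = (Ph (nd l)).2.2.toNat := by rw [← hl]; rfl
    simp only [Finset.mem_insert, Finset.mem_singleton] at hz
    rcases hz with rfl | rfl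
    · simp only at h6; omega
    · simp only at h6; omega

end

end Pool.Agent.H409R2.MZ.Mk
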